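import Pool.Agent.TH826.UM.Mat

set_option autoImplicit false

/-!
Quadratic forms on the tensor product of the spaces of the vectors with sum zero.
-/

namespace Pool.Agent.Helper65K9.MD

open Matrix

open Pool.Agent.TH826.UB (dd sum_dd sum_dd_le exists_submatrix)

open Pool.Agent.TH826.UM (sum_prod_pi)

/-- the Laplacian of the complete graph with the weights `log |β_i - β_j|` -/
noncomputable def LL {s : ℕ} (β : Fin (s + 1) → ℂ) (i j : Fin (s + 1)) : ℝ :=
  (if i = j then ∑ t, Real.log ‖β t - β i‖ else 0) - Real.log ‖β j - β i‖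

section one

variable {s : ℕ}

theorem sum_sq (w : Fin (s + 1) → Fin (s + 1) → ℝ) (hw : ∀ i j, w i j = w j i)
    (v : Fin (s + 1) → ℝ) :
    ∑ i, ∑ j, v i * v j * ((if i = j then ∑ t, w t i else 0) - w j i) =
      1 / 2 * ∑ i, ∑ j, w i j * (v i - v j) ^ 2 := by
  have h1 : ∑ i, ∑ j, w i j * (v i - v j) ^ 2 =
      ∑ i, ∑ j, w i j * v i ^ 2 + ∑ i, ∑ j, w i j * v j ^ 2 -
        2 * ∑ i, ∑ j, v i * v j * w i j := by
    rw [Finset.mul_sum, ← Finset.sum_add_distrib, ← Finset.sum_sub_distrib]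
    refine Finset.sum_congr rfl fun i _ => ?_
    rw [Finset.mul_sum, ← Finset.sum_add_distrib, ← Finset.sum_sub_distrib]
    refine Finset.sum_congr rfl fun j _ => ?_
    ring
  have h2 : ∑ i, ∑ j, w i j * v j ^ 2 = ∑ i, ∑ j, w i j * v i ^ 2 := by
    rw [Finset.sum_comm]
    refine Finset.sum_congr rfl fun i _ => Finset.sum_congr rfl fun j _ => ?_
    rw [hw]
  have h3 : ∑ i, ∑ j, v i * v j * ((if i = j then ∑ t, w t i else 0) - w j i) =
      ∑ i, ∑ j, w i j * v i ^ 2 - ∑ i, ∑ j, v i * v j * w i j := by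
    rw [← Finset.sum_sub_distrib]
    refine Finset.sum_congr rfl fun i _ => ?_
    simp only [mul_sub, Finset.sum_sub_distrib]
    congr 1
    · simp only [mul_ite, mul_zero, Finset.sum_ite_eq, Finset.mem_univ, if_true]
      rw [Finset.mul_sum]
      refine Finset.sum_congr rfl fun t _ => ?_
      rw [hw t i]
      ring
    · refine Finset.sum_congr rfl fun j _ => ?_
      rw [hw j i]
  rw [h3, h1, h2]
  ring

/-- The spectral gap: the weights are at least `c0`, and at least `c0 + c` with at most `N`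
exceptions for every vertex. -/
theorem gap_of (w : Fin (s + 1) → Fin (s + 1) → ℝ) (hw : ∀ i j, w i j = w j i) {c0 c : ℝ}
    (hc : 0 ≤ c) {N : ℕ} (h0 : ∀ i j, i ≠ j → c0 ≤ w i j)
    (hN : ∀ i, (Finset.univ.filter fun j => i ≠ j ∧ w i j < c0 + c).card ≤ N)
    (v : Fin (s + 1) → ℝ) (hv : ∑ i, v i = 0) :
    ((s + 1) * c0 + c * ((s + 1) - 2 * N)) * ∑ i, v i ^ 2 ≤
      1 / 2 * ∑ i, ∑ j, w i j * (v i - v j) ^ 2 := by
  classical
  set b : Fin (s + 1) → Fin (s + 1) → ℝ := fun i j => if i ≠ j ∧ w i j < c0 + c then 1 else 0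
    with hb
  have hbs : ∀ i j, b i j = b j i := by
    intro i j
    simp only [hb]
    rw [hw i j]
    simp only [ne_comm]
  have hb0 : ∀ i j, 0 ≤ b i j := by
    intro i j
    simp only [hb]
    split_ifs <;> norm_num
  have hbN : ∀ i, ∑ j, b i j ≤ N := by
    intro i
    simp only [hb]
    rw [Finset.sum_boole]
    exact_mod_cast hN i
  have hterm : ∀ i j, (c0 + c) * (v i - v j) ^ 2 - c * (b i j * (2 * v i ^ 2 + 2 * v j ^ 2)) ≤
      w i j * (v i - v j) ^ 2 := by
    intro i j
    by_cases hij : i = j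
    · subst hij
      have : b i i = 0 := by simp only [hb]; simp
      rw [this]
      simp
    · have h1 := h0 i j hij
      have hsq : 0 ≤ (v i - v j) ^ 2 := sq_nonneg _
      by_cases h : w i j < c0 + c
      · have : b i j = 1 := by simp only [hb]; rw [if_pos ⟨hij, h⟩]
        rw [this, one_mul]
        have h3 : (v i - v j) ^ 2 ≤ 2 * v i ^ 2 + 2 * v j ^ 2 := by
          nlinarith [sq_nonneg (v i + v j)]
        nlinarith [mul_le_mul_of_nonneg_left h3 hc, mul_le_mul_of_nonneg_right h1 hsq]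
      · have : b i j = 0 := by simp only [hb]; rw [if_neg fun h' => h h'.2]
        rw [this, zero_mul, mul_zero, sub_zero]
        push Not at h
        exact mul_le_mul_of_nonneg_right h hsq
  have hsum : ∑ i, ∑ j, (v i - v j) ^ 2 = 2 * (s + 1) * ∑ i, v i ^ 2 := by
    have h1 : ∀ i, ∑ j, (v i - v j) ^ 2 = (s + 1) * v i ^ 2 + ∑ j, v j ^ 2 := by
      intro i
      have h2 : ∀ j, (v i - v j) ^ 2 = v i ^ 2 - 2 * v i * v j + v j ^ 2 := fun j => by ring
      simp only [h2, Finset.sum_add_distrib, Finset.sum_sub_distrib, ← Finset.mul_sum, hv]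
      simp
    simp only [h1, Finset.sum_add_distrib, ← Finset.mul_sum]
    simp
    ring
  have hbad : ∑ i, ∑ j, b i j * (2 * v i ^ 2 + 2 * v j ^ 2) ≤ 4 * N * ∑ i, v i ^ 2 := by
    have h1 : ∑ i, ∑ j, b i j * (2 * v i ^ 2 + 2 * v j ^ 2) =
        4 * ∑ i, (∑ j, b i j) * v i ^ 2 := by
      have h2 : ∑ i, ∑ j, b i j * (2 * v j ^ 2) = ∑ i, ∑ j, b i j * (2 * v i ^ 2) := by
        rw [Finset.sum_comm]
        refine Finset.sum_congr rfl fun i _ => Finset.sum_congr rfl fun j _ => ?_
        rw [hbs]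
      simp only [mul_add, Finset.sum_add_distrib]
      rw [h2, Finset.mul_sum, ← Finset.sum_add_distrib]
      refine Finset.sum_congr rfl fun i _ => ?_
      rw [← Finset.sum_add_distrib, Finset.sum_mul, Finset.mul_sum]
      refine Finset.sum_congr rfl fun j _ => ?_
      ring
    rw [h1, Finset.mul_sum, mul_assoc, Finset.mul_sum, Finset.mul_sum]
    refine Finset.sum_le_sum fun i _ => ?_
    have := mul_le_mul_of_nonneg_right (hbN i) (sq_nonneg (v i))
    linarith
  have hall := Finset.sum_le_sum fun i (_ : i ∈ Finset.univ) =>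
    Finset.sum_le_sum fun j (_ : j ∈ Finset.univ) => hterm i j
  simp only [Finset.sum_sub_distrib, ← Finset.mul_sum] at hall
  rw [hsum] at hall
  have h5 := mul_le_mul_of_nonneg_left hbad hc
  linarith

end one

section grid

variable {n : ℕ} {r : Fin n → ℕ}

theorem sum_update (k : Fin n) (f : (∀ k, Fin (r k + 1)) → ℝ) :
    ∑ P : (∀ k, Fin (r k + 1)), ∑ i : Fin (r k + 1), f (Function.update P k i) =
      (r k + 1) * ∑ P, f P := by
  set τ : (∀ k, Fin (r k + 1)) × Fin (r k + 1) → (∀ k, Fin (r k + 1)) × Fin (r k + 1) :=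
    fun x => (Function.update x.1 k x.2, x.1 k) with hτ
  have hinv : Function.Involutive τ := by
    rintro ⟨P, i⟩
    simp only [hτ]
    rw [Function.update_idem, Function.update_eq_self, Function.update_self]
  have h1 : ∑ P : (∀ k, Fin (r k + 1)), ∑ i : Fin (r k + 1), f (Function.update P k i) =
      ∑ x : (∀ k, Fin (r k + 1)) × Fin (r k + 1), f ((hinv.toPerm τ) x).1 := by
    rw [Fintype.sum_prod_type]
    rfl
  rw [h1, Equiv.sum_comp (hinv.toPerm τ) (fun x => f x.1), Fintype.sum_prod_type]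
  simp only [Finset.sum_const, Finset.card_univ, Fintype.card_fin, nsmul_eq_mul, ← Finset.mul_sum]
  push_cast
  rfl

theorem quad_coord (k : Fin n) (L : Fin (r k + 1) → Fin (r k + 1) → ℝ) {γ : ℝ}
    (hL : ∀ v : Fin (r k + 1) → ℝ, ∑ i, v i = 0 →
      γ * ∑ i, v i ^ 2 ≤ ∑ i, ∑ j, v i * v j * L i j)
    (u : (∀ k, Fin (r k + 1)) → ℝ) (hu : ∀ P, ∑ i, u (Function.update P k i) = 0) :
    γ * ∑ P, u P ^ 2 ≤ ∑ P, ∑ j, u P * u (Function.update P k j) * L (P k) j := by
  have h1 := sum_update k (fun P => u P ^ 2)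
  have h2 := sum_update k (fun P => ∑ j, u P * u (Function.update P k j) * L (P k) j)
  simp only [Function.update_idem, Function.update_self] at h2
  have h3 : ∀ P : (∀ k, Fin (r k + 1)), γ * ∑ i, u (Function.update P k i) ^ 2 ≤
      ∑ i, ∑ j, u (Function.update P k i) * u (Function.update P k j) * L i j := fun P =>
    hL (fun i => u (Function.update P k i)) (hu P)
  have h4 := Finset.sum_le_sum fun P (_ : P ∈ Finset.univ) => h3 P
  rw [← Finset.mul_sum, h1, h2] at h4
  have h5 : (0 : ℝ) < r k + 1 := by positivity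
  have h6 : ((r k : ℝ) + 1) * (γ * ∑ P, u P ^ 2) ≤ ((r k : ℝ) + 1) *
      ∑ P, ∑ j, u P * u (Function.update P k j) * L (P k) j := by linarith
  exact le_of_mul_le_mul_left h6 h5

/-- the product of the Kronecker deltas of the coordinates different from `k` -/
noncomputable def dl (k : Fin n) (P Q : ∀ k, Fin (r k + 1)) : ℝ :=
  ∏ l, if l = k then 1 else if P l = Q l then 1 else 0

theorem dl_update (k : Fin n) (P : ∀ k, Fin (r k + 1)) (j : Fin (r k + 1)) :
    dl k P (Function.update P k j) = 1 := by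
  unfold dl
  refine Finset.prod_eq_one fun l _ => ?_
  by_cases h : l = k
  · rw [if_pos h]
  · rw [if_neg h, Function.update_of_ne h, if_pos rfl]

theorem dl_eq_zero (k : Fin n) (P Q : ∀ k, Fin (r k + 1))
    (h : Q ∉ Set.range fun j : Fin (r k + 1) => Function.update P k j) : dl k P Q = 0 := by
  have h1 : ∃ l, l ≠ k ∧ P l ≠ Q l := by
    by_contra hcon
    push Not at hcon
    refine h ⟨Q k, ?_⟩
    funext l
    by_cases hl : l = k
    · subst hl
      simp
    · simp only
      rw [Function.update_of_ne hl]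
      exact hcon l hl
  obtain ⟨l, hl, hPl⟩ := h1
  unfold dl
  refine Finset.prod_eq_zero (Finset.mem_univ l) ?_
  rw [if_neg hl, if_neg hPl]

theorem sum_dl (k : Fin n) (P : ∀ k, Fin (r k + 1)) (f : (∀ k, Fin (r k + 1)) → ℝ) :
    ∑ Q, dl k P Q * f Q = ∑ j, f (Function.update P k j) := by
  symm
  refine Fintype.sum_of_injective (fun j : Fin (r k + 1) => Function.update P k j)
    (Function.update_injective P k) _ _ (fun Q hQ => ?_) fun j => ?_
  · rw [dl_eq_zero k P Q hQ, zero_mul]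
  · rw [dl_update, one_mul]

/-- the main part of the regulator matrix -/
noncomputable def Mn (lm : ℝ) (L : ∀ k : Fin n, Fin (r k + 1) → Fin (r k + 1) → ℝ)
    (P Q : ∀ k, Fin (r k + 1)) : ℝ :=
  lm * (if P = Q then 1 else 0) + ∑ k, dl k P Q * L k (P k) (Q k)

theorem quad_Mn (lm : ℝ) (L : ∀ k : Fin n, Fin (r k + 1) → Fin (r k + 1) → ℝ) {γ : Fin n → ℝ}
    (hL : ∀ k, ∀ v : Fin (r k + 1) → ℝ, ∑ i, v i = 0 →
      γ k * ∑ i, v i ^ 2 ≤ ∑ i, ∑ j, v i * v j * L k i j)
    (u : (∀ k, Fin (r k + 1)) → ℝ) (hu : ∀ k P, ∑ i, u (Function.update P k i) = 0) :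
    (lm + ∑ k, γ k) * ∑ P, u P ^ 2 ≤ ∑ P, ∑ Q, u P * u Q * Mn lm L P Q := by
  have h1 : ∑ P, ∑ Q, u P * u Q * Mn lm L P Q = lm * ∑ P, u P ^ 2 +
      ∑ k, ∑ P, ∑ j, u P * u (Function.update P k j) * L k (P k) j := by
    have h2 : ∀ P, ∑ Q, u P * u Q * Mn lm L P Q = lm * u P ^ 2 +
        ∑ k, ∑ j, u P * u (Function.update P k j) * L k (P k) j := by
      intro P
      unfold Mn
      simp only [mul_add, Finset.sum_add_distrib]
      congr 1
      · simp only [mul_ite, mul_one, mul_zero, Finset.sum_ite_eq, Finset.mem_univ, if_true]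
        ring
      · simp only [Finset.mul_sum]
        rw [Finset.sum_comm]
        refine Finset.sum_congr rfl fun k _ => ?_
        have h3 := sum_dl k P (fun Q => u P * u Q * L k (P k) (Q k))
        simp only [Function.update_self] at h3
        rw [← h3]
        refine Finset.sum_congr rfl fun Q _ => ?_
        ring
    simp only [h2, Finset.sum_add_distrib, ← Finset.mul_sum]
    congr 1
    rw [Finset.sum_comm]
  rw [h1, add_mul, Finset.sum_mul]
  exact add_le_add le_rfl (Finset.sum_le_sum fun k _ => quad_coord k (L k) (hL k) u (hu k))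

/-- A matrix which is close to the main part is nonsingular on the space of the vectors with
partial sums zero. -/
theorem inj_of_approx {R : (∀ k, Fin (r k + 1)) → (∀ k, Fin (r k + 1)) → ℝ} {lm : ℝ}
    {L : ∀ k : Fin n, Fin (r k + 1) → Fin (r k + 1) → ℝ} {γ : Fin n → ℝ}
    (hL : ∀ k, ∀ v : Fin (r k + 1) → ℝ, ∑ i, v i = 0 →
      γ k * ∑ i, v i ^ 2 ≤ ∑ i, ∑ j, v i * v j * L k i j)
    {c T : ℝ} (hc : 0 < c) (b : (∀ k, Fin (r k + 1)) → (∀ k, Fin (r k + 1)) → ℝ)
    (hbs : ∀ P Q, b P Q = b Q P) (hb : ∀ P Q, |R P Q - c * Mn lm L P Q| ≤ b P Q)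
    (hT : ∀ P, ∑ Q, b P Q ≤ T) (hmain : T < c * (lm + ∑ k, γ k))
    (u : (∀ k, Fin (r k + 1)) → ℝ) (hu : ∀ k P, ∑ i, u (Function.update P k i) = 0)
    (hR : ∀ Q, ∑ P, u P * R P Q = 0) : u = 0 := by
  have h0 : ∑ P, ∑ Q, u P * u Q * R P Q = 0 := by
    rw [Finset.sum_comm]
    refine Finset.sum_eq_zero fun Q _ => ?_
    have : ∑ P, u P * u Q * R P Q = u Q * ∑ P, u P * R P Q := by
      rw [Finset.mul_sum]
      refine Finset.sum_congr rfl fun P _ => ?_
      ring
    rw [this, hR, mul_zero]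
  have h1 := quad_Mn lm L hL u hu
  have h2 : |∑ P, ∑ Q, u P * u Q * (R P Q - c * Mn lm L P Q)| ≤ T * ∑ P, u P ^ 2 := by
    have h3 : |∑ P, ∑ Q, u P * u Q * (R P Q - c * Mn lm L P Q)| ≤
        ∑ P, ∑ Q, (u P ^ 2 / 2 * b P Q + u Q ^ 2 / 2 * b P Q) := by
      refine (Finset.abs_sum_le_sum_abs _ _).trans (Finset.sum_le_sum fun P _ => ?_)
      refine (Finset.abs_sum_le_sum_abs _ _).trans (Finset.sum_le_sum fun Q _ => ?_)
      rw [abs_mul]
      have h4 : |u P * u Q| ≤ u P ^ 2 / 2 + u Q ^ 2 / 2 := by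
        rw [abs_le]
        constructor <;> nlinarith [sq_nonneg (u P - u Q), sq_nonneg (u P + u Q)]
      rw [← add_mul]
      exact mul_le_mul h4 (hb P Q) (abs_nonneg _) (by positivity)
    refine h3.trans ?_
    have h5 : ∑ P, ∑ Q, (u P ^ 2 / 2 * b P Q + u Q ^ 2 / 2 * b P Q) =
        ∑ P, u P ^ 2 * ∑ Q, b P Q := by
      simp only [Finset.sum_add_distrib]
      have h6 : ∑ P, ∑ Q, u Q ^ 2 / 2 * b P Q = ∑ P, ∑ Q, u P ^ 2 / 2 * b P Q := by
        rw [Finset.sum_comm]
        refine Finset.sum_congr rfl fun P _ => Finset.sum_congr rfl fun Q _ => ?_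
        rw [hbs]
      rw [h6, ← Finset.sum_add_distrib]
      refine Finset.sum_congr rfl fun P _ => ?_
      rw [← Finset.mul_sum]
      ring
    rw [h5, Finset.mul_sum]
    refine Finset.sum_le_sum fun P _ => ?_
    have := mul_le_mul_of_nonneg_left (hT P) (sq_nonneg (u P))
    linarith
  have h3 : ∑ P, ∑ Q, u P * u Q * (R P Q - c * Mn lm L P Q) =
      -(c * ∑ P, ∑ Q, u P * u Q * Mn lm L P Q) := by
    have h4 : ∑ P, ∑ Q, u P * u Q * (R P Q - c * Mn lm L P Q) =
        ∑ P, ∑ Q, u P * u Q * R P Q - c * ∑ P, ∑ Q, u P * u Q * Mn lm L P Q := by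
      rw [Finset.mul_sum, ← Finset.sum_sub_distrib]
      refine Finset.sum_congr rfl fun P _ => ?_
      rw [Finset.mul_sum, ← Finset.sum_sub_distrib]
      refine Finset.sum_congr rfl fun Q _ => ?_
      ring
    rw [h4, h0, zero_sub]
  rw [h3, abs_neg] at h2
  have h4 := (abs_le.1 h2).2
  have h5 := mul_le_mul_of_nonneg_left h1 hc.le
  have hS0 : 0 ≤ ∑ P, u P ^ 2 := Finset.sum_nonneg fun P _ => sq_nonneg _
  have h6 : ∑ P, u P ^ 2 = 0 := by
    by_contra hne
    have hpos : 0 < ∑ P, u P ^ 2 := lt_of_le_of_ne hS0 (Ne.symm hne)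
    have := mul_lt_mul_of_pos_right hmain hpos
    linarith
  funext P
  have h7 := (Finset.sum_eq_zero_iff_of_nonneg fun P _ => sq_nonneg (u P)).1 h6 P
    (Finset.mem_univ P)
  exact pow_eq_zero_iff (two_ne_zero) |>.1 h7

/-- A matrix with rows and columns indexed by the grid which is nonsingular on the vectors with
partial sums zero: for a suitable choice of columns the matrix of the mixed differences of the rows
is nonsingular. -/
theorem exists_columns (R : Matrix (∀ k, Fin (r k + 1)) (∀ k, Fin (r k + 1)) ℝ)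
    (hR : ∀ u : (∀ k, Fin (r k + 1)) → ℝ, (∀ k P, ∑ i, u (Function.update P k i) = 0) →
      (∀ Q, ∑ P, u P * R P Q = 0) → u = 0) :
    ∃ e : (∀ k, Fin (r k)) → (∀ k, Fin (r k + 1)),
      (Matrix.of fun t i : (∀ k, Fin (r k)) =>
        ∑ p, (∏ k, dd (i k) (p k)) * R p (e t)).det ≠ 0 := by
  classical
  set D : Matrix (∀ k, Fin (r k)) (∀ k, Fin (r k + 1)) ℝ :=
    fun i p => ∏ k, dd (i k) (p k) with hD
  set T : Matrix (∀ k, Fin (r k + 1)) (∀ k, Fin (r k)) ℝ :=
    fun p i => ∏ k, (if (p k : ℕ) ≤ i k then 1 else 0) with hT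
  have hDT : D * T = 1 := by
    ext i j
    rw [Matrix.mul_apply]
    have h1 : ∀ p, D i p * T p j =
        ∏ k, (dd (i k) (p k) * (if (p k : ℕ) ≤ j k then 1 else 0)) := by
      intro p
      simp only [hD, hT]
      rw [Finset.prod_mul_distrib]
    simp only [h1]
    rw [sum_prod_pi (fun k x => dd (i k) x * (if (x : ℕ) ≤ j k then (1 : ℝ) else 0))]
    simp only [sum_dd_le]
    by_cases hij : i = j
    · subst hij
      simp
    · rw [Matrix.one_apply_ne hij]
      obtain ⟨k, hk⟩ : ∃ k, i k ≠ j k := by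
        by_contra h
        push Not at h
        exact hij (funext h)
      exact Finset.prod_eq_zero (Finset.mem_univ k) (if_neg hk)
  have hinj : Function.Injective (D * R).vecMulLinear := by
    rw [← LinearMap.ker_eq_bot, LinearMap.ker_eq_bot']
    intro v hv
    have hv' : v ᵥ* (D * R) = 0 := hv
    rw [← Matrix.vecMul_vecMul] at hv'
    have hu := hR (v ᵥ* D) (fun k P => by
      have h1 : ∀ x, (v ᵥ* D) (Function.update P k x) =
          ∑ i, v i * ∏ l, dd (i l) (Function.update P k x l) := fun x => rfl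
      simp only [h1]
      rw [Finset.sum_comm]
      refine Finset.sum_eq_zero fun i _ => ?_
      rw [← Finset.mul_sum]
      have h2 : ∀ x, ∏ l, dd (i l) (Function.update P k x l) =
          dd (i k) x * ∏ l ∈ Finset.univ.erase k, dd (i l) (P l) := by
        intro x
        rw [← Finset.mul_prod_erase _ _ (Finset.mem_univ k), Function.update_self]
        congr 1
        refine Finset.prod_congr rfl fun l hl => ?_
        rw [Function.update_of_ne (Finset.ne_of_mem_erase hl)]
      simp only [h2]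
      rw [← Finset.sum_mul]
      have h3 := sum_dd (i k) (fun _ => (1 : ℝ))
      simp only [mul_one, sub_self] at h3
      rw [h3, zero_mul, mul_zero]) (fun Q => congrFun hv' Q)
    have h4 : v = (v ᵥ* D) ᵥ* T := by
      rw [Matrix.vecMul_vecMul, hDT, Matrix.vecMul_one]
    rw [h4, hu, Matrix.zero_vecMul]
  obtain ⟨g, hg⟩ := LinearMap.exists_leftInverse_of_injective (D * R).vecMulLinear
    (LinearMap.ker_eq_bot.2 hinj)
  set N : Matrix (∀ k, Fin (r k + 1)) (∀ k, Fin (r k)) ℝ := fun p i => g (Pi.single p 1) i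
    with hN
  have hgN : ∀ x, g x = x ᵥ* N := by
    intro x
    have h1 : x = ∑ p, x p • (Pi.single p 1 : (∀ k, Fin (r k + 1)) → ℝ) := by
      funext q
      simp [Finset.sum_apply, Pi.single_apply]
    conv_lhs => rw [h1]
    rw [map_sum]
    funext i
    rw [Finset.sum_apply]
    simp only [map_smul, Pi.smul_apply, smul_eq_mul]
    rfl
  have hone : (D * R) * N = 1 := by
    ext i j
    have h1 := congrFun (congrArg (fun f => f (Pi.single i 1)) hg) j
    have h2 : (g ∘ₗ (D * R).vecMulLinear) (Pi.single i 1) = (Pi.single i 1 ᵥ* (D * R)) ᵥ* N :=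
      hgN _
    simp only [LinearMap.id_coe, id_eq] at h1
    rw [h2, Matrix.vecMul_vecMul, Matrix.single_one_vecMul] at h1
    rw [Matrix.one_apply]
    change ((D * R) * N) i j = _ at h1
    rw [h1, Pi.single_apply]
    simp only [eq_comm]
  obtain ⟨e, he⟩ := exists_submatrix (D * R) N (by
    rw [hone, Matrix.det_one]
    exact one_ne_zero)
  refine ⟨e, ?_⟩
  rw [← Matrix.det_transpose] at he
  exact he

end grid

end Pool.Agent.Helper65K9.MD
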