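import Pool.Agent.TH826.UM.Final
import Pool.Agent.Helper65K9.MD.QF

set_option autoImplicit false

/-!
The regulators of the symbols `{y - β_{0,j}, x_1 - β_{1,p_1}, ..., x_d - β_{d,p_d}}` on the tori,
up to a small error.
-/

namespace Pool.Agent.Helper65K9.MD

open MeasureTheory Set

open Pool.Agent.TH826.MK

open Pool.Agent.TH826.MH (good_w)

open Pool.Agent.TH826.UM

section approx

variable {d m : ℕ} {s : Fin d → ℕ} {β : ∀ k : Fin d, Fin (s k + 1) → ℂ} {μ : ℂ}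
  {β0 : Fin (m + 1) → ℂ} {G : Fin (m + 1) → ℂ → ℂ}

theorem approx (hd : 0 < d) (hβ0 : ∀ i j, i ≠ j → 3 ≤ ‖β0 i - β0 j‖)
    (hβ : ∀ k i j, i ≠ j → 3 ≤ ‖β k i - β k j‖) (hμ0 : μ ≠ 0) {ω ε : ℝ}
    (hw : ∀ q θ, ‖ww μ β q θ‖ ≤ ω) (hε0 : 0 ≤ ε) (hε : ε ≤ 1)
    (hG1 : ∀ l w, ‖w‖ ≤ ω → AnalyticAt ℂ (G l) w)
    (hG2 : ∀ l w, ‖w‖ ≤ ω → ∏ j, (G l w - β0 j) = w)
    (hG4 : ∀ l w, ‖w‖ ≤ ω → ‖G l w - β0 l‖ ≤ ε) (p0 q0 : Fin (m + 1))
    (p q : ∀ k, Fin (s k + 1)) :
    |RR β0 β μ G (p0, p) (q0, q) - (2 * Real.pi) ^ d *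
      (Real.log ‖μ‖ * ((if p0 = q0 then 1 else 0) * ∏ k, (if p k = q k then (1 : ℝ) else 0)) +
        ((∏ k, (if p k = q k then (1 : ℝ) else 0)) * LL β0 p0 q0 +
        (if p0 = q0 then 1 else 0) * ∑ k, (∏ l ∈ Finset.univ.erase k,
          if p l = q l then (1 : ℝ) else 0) * LL (β k) (p k) (q k)))| ≤
      if q0 = p0 then m * ((2 * Real.pi) ^ d * (ε / 2)) else (2 * Real.pi) ^ d * (ε / 2) := by
  classical
  have hpi := Real.pi_pos
  have gw : ∀ q, Good (ww μ β q) := fun q => good_w (good_FF hβ q) hμ0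
  have hYcd : ∀ l q, ContDiff ℝ 2 fun θ => G l (ww μ β q θ) := by
    intro l q
    rw [contDiff_iff_contDiffAt]
    intro θ
    exact ((hG1 l _ (hw q θ)).contDiffAt.restrict_scalars ℝ).comp θ
      (gw q).smooth.contDiffAt
  have hYne : ∀ l q j θ, G l (ww μ β q θ) - β0 j ≠ 0 := by
    intro l q j θ h
    have h1 := hG2 l _ (hw q θ)
    rw [Finset.prod_eq_zero (Finset.mem_univ j) h] at h1
    exact (gw q).ne_zero θ h1.symm
  have gY : ∀ l q j, Good fun θ => G l (ww μ β q θ) - β0 j := fun l q j =>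
    ⟨(hYcd l q).sub contDiff_const, hYne l q j⟩
  have hV : ∀ (q p : ∀ k, Fin (s k + 1)) k, One (ff β q k (p k)) (if p k = q k then 1 else 0) :=
    fun q p k => one_ff hβ q k (p k)
  have gV : ∀ (q p : ∀ k, Fin (s k + 1)) k, Good (vf (fun k => ff β q k (p k)) k) :=
    fun q p k => (hV q p k).good k
  -- the sum rule
  have sum2 : ∀ (q0 : Fin (m + 1)) (p q : ∀ k, Fin (s k + 1)),
      ∑ p0, RR β0 β μ G (p0, p) (q0, q) =
        -pairing (Fin.cons (ww μ β q) (vf fun k => ff β q k (p k))) := by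
    intro q0 p q
    unfold RR
    simp only
    rw [Finset.sum_neg_distrib]
    congr 1
    rw [← pairing_prod Finset.univ (fun p0 => gY q0 q p0) (hV q p)]
    congr 2
    funext θ
    exact hG2 q0 _ (hw q θ)
  -- the estimate
  set B : ℝ := (2 * Real.pi) ^ d * (ε / 2) with hB
  have hB0 : 0 ≤ B := by positivity
  have hfar : ∀ (p0 q0 : Fin (m + 1)) (p q : ∀ k, Fin (s k + 1)), q0 ≠ p0 →
      |RR β0 β μ G (p0, p) (q0, q) + (2 * Real.pi) ^ d * Real.log ‖β0 q0 - β0 p0‖ *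
        ∏ k, (if p k = q k then (1 : ℝ) else 0)| ≤ B := by
    intro p0 q0 p q h
    have hd3 := hβ0 q0 p0 h
    set c : ℂ := β0 q0 - β0 p0 with hc
    have hc0 : c ≠ 0 := by
      rw [← norm_pos_iff]
      linarith
    set Z : (Fin d → ℝ) → ℂ := fun θ => (G q0 (ww μ β q θ) - β0 q0) / c with hZ
    have hZb : ∀ θ, ‖Z θ‖ ≤ ε / 3 := by
      intro θ
      simp only [hZ]
      rw [norm_div]
      exact div_le_div₀ hε0 (hG4 q0 _ (hw q θ)) (by norm_num) hd3
    have hZ1 : ∀ θ, ‖Z θ‖ < 1 := fun θ => (hZb θ).trans_lt (by linarith)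
    have hsl : ∀ θ, 1 + Z θ ∈ Complex.slitPlane := fun θ =>
      Complex.mem_slitPlane_of_norm_lt_one (hZ1 θ)
    have hZcd : ContDiff ℝ 2 fun θ => 1 + Z θ :=
      contDiff_const.add (((hYcd q0 q).sub contDiff_const).div_const c)
    have gZ : Good fun θ => 1 + Z θ := ⟨hZcd, fun θ => Complex.slitPlane_ne_zero (hsl θ)⟩
    have hper : Per fun θ => 1 + Z θ := by
      intro θ i
      simp only [hZ]
      rw [per_ww hβ q θ i]
    have e1 : (fun θ => G q0 (ww μ β q θ) - β0 p0) = fun θ => c * (1 + Z θ) := by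
      funext θ
      simp only [hZ]
      field_simp
      rw [hc]
      ring
    have h1 := abs_pairing_log_le hd hZcd hper hsl (hV q p) (A := ε / 2)
      (C := 2 * Real.pi) (fun θ => by
        have h3 := Complex.norm_log_one_add_half_le_self (z := Z θ)
          ((hZb θ).trans (by linarith))
        calc _ ≤ 3 / 2 * ‖Z θ‖ := h3
          _ ≤ 3 / 2 * (ε / 3) := mul_le_mul_of_nonneg_left (hZb θ) (by norm_num)
          _ = ε / 2 := by ring) (fun k t => norm_ld_ff hβ q k (p k) t)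
    have h2 : RR β0 β μ G (p0, p) (q0, q) + (2 * Real.pi) ^ d * Real.log ‖c‖ *
        ∏ k, (if p k = q k then (1 : ℝ) else 0) =
        -pairing (Fin.cons (fun θ => 1 + Z θ) (vf fun k => ff β q k (p k))) := by
      unfold RR
      simp only
      rw [e1, pairing_cons_mul (good_const hc0) gZ (gV q p), pairing_const _ _ _ (hV q p)]
      ring
    rw [h2, abs_neg, hB]
    refine h1.trans (le_of_eq ?_)
    ring
  by_cases h : q0 = p0
  · rw [if_pos h]
    subst h
    have h1 := sum2 q0 p q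
    rw [pairing_ww hβ hμ0, ← Finset.add_sum_erase _ _ (Finset.mem_univ q0)] at h1
    have h3 : |∑ j ∈ Finset.univ.erase q0, (RR β0 β μ G (j, p) (q0, q) +
        (2 * Real.pi) ^ d * Real.log ‖β0 q0 - β0 j‖ *
        ∏ k, (if p k = q k then (1 : ℝ) else 0))| ≤ m * B := by
      refine (Finset.abs_sum_le_sum_abs _ _).trans ?_
      have h4 : ∑ _j ∈ Finset.univ.erase q0, B = m * B := by
        rw [Finset.sum_const, Finset.card_erase_of_mem (Finset.mem_univ q0), Finset.card_univ,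
          Fintype.card_fin, nsmul_eq_mul, Nat.add_sub_cancel]
      rw [← h4]
      exact Finset.sum_le_sum fun j hj => hfar j q0 p q (Finset.ne_of_mem_erase hj).symm
    rw [Finset.sum_add_distrib] at h3
    have hLL : LL β0 q0 q0 = ∑ j ∈ Finset.univ.erase q0, Real.log ‖β0 q0 - β0 j‖ := by
      unfold LL
      rw [if_pos rfl, ← Finset.add_sum_erase _ _ (Finset.mem_univ q0), add_sub_cancel_left]
      refine Finset.sum_congr rfl fun j _ => ?_
      rw [norm_sub_rev]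
    have hsum : ∑ j ∈ Finset.univ.erase q0, (2 * Real.pi) ^ d * Real.log ‖β0 q0 - β0 j‖ *
        ∏ k, (if p k = q k then (1 : ℝ) else 0) =
        (2 * Real.pi) ^ d * ((∏ k, (if p k = q k then (1 : ℝ) else 0)) * LL β0 q0 q0) := by
      rw [hLL, Finset.mul_sum, Finset.mul_sum]
      refine Finset.sum_congr rfl fun j _ => ?_
      ring
    rw [hsum] at h3
    have hk : ∀ k, LL (β k) (p k) (q k) = (if p k = q k then
        ∑ i, Real.log ‖β k i - β k (p k)‖ else 0) - Real.log ‖β k (q k) - β k (p k)‖ :=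
      fun k => rfl
    simp only [hk, if_true, one_mul]
    rw [abs_le] at h3 ⊢
    constructor <;> linarith [h3.1, h3.2]
  · rw [if_neg h]
    have h1 := hfar p0 q0 p q h
    have hLL : LL β0 p0 q0 = - Real.log ‖β0 q0 - β0 p0‖ := by
      unfold LL
      rw [if_neg (Ne.symm h), zero_sub]
    rw [if_neg (Ne.symm h), zero_mul, zero_mul, mul_zero, zero_add, add_zero, hLL]
    have h2 : RR β0 β μ G (p0, p) (q0, q) - (2 * Real.pi) ^ d *
        ((∏ k, (if p k = q k then (1 : ℝ) else 0)) * -Real.log ‖β0 q0 - β0 p0‖) =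
        RR β0 β μ G (p0, p) (q0, q) + (2 * Real.pi) ^ d * Real.log ‖β0 q0 - β0 p0‖ *
        ∏ k, (if p k = q k then (1 : ℝ) else 0) := by ring
    rw [h2]
    exact h1

end approx

section unif

variable {d : ℕ} {r : Fin (d + 1) → ℕ}

theorem Mn_succ (lm : ℝ) (L : ∀ k : Fin (d + 1), Fin (r k + 1) → Fin (r k + 1) → ℝ)
    (P Q : ∀ k, Fin (r k + 1)) :
    Mn lm L P Q = lm * ((if P 0 = Q 0 then 1 else 0) *
        ∏ k : Fin d, (if P k.succ = Q k.succ then (1 : ℝ) else 0)) +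
      ((∏ k : Fin d, (if P k.succ = Q k.succ then (1 : ℝ) else 0)) * L 0 (P 0) (Q 0) +
        (if P 0 = Q 0 then 1 else 0) * ∑ k : Fin d, (∏ l ∈ Finset.univ.erase k,
          if P l.succ = Q l.succ then (1 : ℝ) else 0) * L k.succ (P k.succ) (Q k.succ)) := by
  unfold Mn
  congr 1
  · congr 1
    have h1 : (if P 0 = Q 0 then (1 : ℝ) else 0) *
        ∏ k : Fin d, (if P k.succ = Q k.succ then (1 : ℝ) else 0) =
        ∏ k, (if P k = Q k then (1 : ℝ) else 0) :=
      (Fin.prod_univ_succ fun k => if P k = Q k then (1 : ℝ) else 0).symm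
    rw [h1]
    by_cases h : P = Q
    · rw [if_pos h, h]
      simp
    · rw [if_neg h]
      obtain ⟨k, hk⟩ : ∃ k, P k ≠ Q k := by
        by_contra h'
        push Not at h'
        exact h (funext h')
      exact (Finset.prod_eq_zero (Finset.mem_univ k) (if_neg hk)).symm
  · rw [Fin.sum_univ_succ]
    congr 1
    · congr 1
      unfold dl
      rw [Fin.prod_univ_succ, if_pos rfl, one_mul]
      refine Finset.prod_congr rfl fun l _ => ?_
      rw [if_neg (Fin.succ_ne_zero l)]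
    · rw [Finset.mul_sum]
      refine Finset.sum_congr rfl fun k _ => ?_
      rw [← mul_assoc]
      congr 1
      unfold dl
      rw [Fin.prod_univ_succ, if_neg (Fin.succ_ne_zero k).symm]
      congr 1
      rw [← Finset.mul_prod_erase _ _ (Finset.mem_univ k), if_pos rfl, one_mul]
      refine Finset.prod_congr rfl fun l hl => ?_
      rw [if_neg fun h => Finset.ne_of_mem_erase hl (Fin.succ_injective _ h)]

variable {β : ∀ k : Fin (d + 1), Fin (r k + 1) → ℂ} {μ : ℂ} {G : Fin (r 0 + 1) → ℂ → ℂ}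

/-- the regulator matrix is nonsingular on the vectors with partial sums zero -/
theorem inj_RR (hd : 0 < d) (hβ : ∀ k i j, i ≠ j → 3 ≤ ‖β k i - β k j‖) (hμ0 : μ ≠ 0) {ω ε : ℝ}
    (hw : ∀ q θ, ‖ww μ (fun k : Fin d => β k.succ) q θ‖ ≤ ω) (hε0 : 0 ≤ ε) (hε : ε ≤ 1)
    (hG1 : ∀ l w, ‖w‖ ≤ ω → AnalyticAt ℂ (G l) w)
    (hG2 : ∀ l w, ‖w‖ ≤ ω → ∏ j, (G l w - β 0 j) = w)
    (hG4 : ∀ l w, ‖w‖ ≤ ω → ‖G l w - β 0 l‖ ≤ ε) {γ : Fin (d + 1) → ℝ}
    (hγ : ∀ k, ∀ v : Fin (r k + 1) → ℝ, ∑ i, v i = 0 →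
      γ k * ∑ i, v i ^ 2 ≤ ∑ i, ∑ j, v i * v j * LL (β k) i j)
    (hmain : (∏ k, ((r k : ℝ) + 1)) * ε < Real.log ‖μ‖ + ∑ k, γ k)
    (u : (∀ k, Fin (r k + 1)) → ℝ) (hu : ∀ k P, ∑ i, u (Function.update P k i) = 0)
    (hR : ∀ Q : (∀ k, Fin (r k + 1)), ∑ P : (∀ k, Fin (r k + 1)), u P *
      RR (β 0) (fun k : Fin d => β k.succ) μ G (P 0, fun k => P k.succ)
        (Q 0, fun k => Q k.succ) = 0) : u = 0 := by
  classical
  have hpi := Real.pi_pos
  set B : ℝ := (2 * Real.pi) ^ d * (ε / 2) with hB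
  have hB0 : 0 ≤ B := by positivity
  refine inj_of_approx (R := fun P Q => RR (β 0) (fun k : Fin d => β k.succ) μ G
      (P 0, fun k => P k.succ) (Q 0, fun k => Q k.succ)) (lm := Real.log ‖μ‖)
    (L := fun k => LL (β k)) (γ := γ) hγ (c := (2 * Real.pi) ^ d)
    (T := (2 * Real.pi) ^ d * ((∏ k, ((r k : ℝ) + 1)) * ε)) (by positivity)
    (fun P Q => if Q 0 = P 0 then r 0 * B else B) (fun P Q => ?_) (fun P Q => ?_) (fun P => ?_) ?_
    u hu hR
  · simp only [eq_comm]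
  · rw [Mn_succ]
    exact approx hd (hβ 0) (fun k => hβ k.succ) hμ0 hw hε0 hε hG1 hG2 hG4 (P 0) (Q 0)
      (fun k => P k.succ) (fun k => Q k.succ)
  · have h1 : ∑ Q : (∀ k, Fin (r k + 1)), (if Q 0 = P 0 then (r 0 : ℝ) * B else B) =
        ∑ x : Fin (r 0 + 1) × (∀ k : Fin d, Fin (r k.succ + 1)),
          (if x.1 = P 0 then (r 0 : ℝ) * B else B) := by
      rw [← Equiv.sum_comp (Fin.consEquiv fun k => Fin (r k + 1))]
      rfl
    rw [h1, Fintype.sum_prod_type_right]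
    simp only
    have h2 : ∑ q0 : Fin (r 0 + 1), (if q0 = P 0 then (r 0 : ℝ) * B else B) = 2 * r 0 * B := by
      rw [← Finset.add_sum_erase _ _ (Finset.mem_univ (P 0)), if_pos rfl]
      have h2 : ∑ q0 ∈ Finset.univ.erase (P 0), (if q0 = P 0 then (r 0 : ℝ) * B else B) =
          ∑ _q0 ∈ Finset.univ.erase (P 0), B :=
        Finset.sum_congr rfl fun j hj => if_neg (Finset.ne_of_mem_erase hj)
      rw [h2, Finset.sum_const, Finset.card_erase_of_mem (Finset.mem_univ _), Finset.card_univ,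
        Fintype.card_fin, nsmul_eq_mul, Nat.add_sub_cancel]
      ring
    simp only [h2]
    rw [Finset.sum_const, Finset.card_univ, Fintype.card_pi, nsmul_eq_mul]
    simp only [Fintype.card_fin]
    push_cast
    rw [Fin.prod_univ_succ]
    have h3 : 0 ≤ ∏ k : Fin d, ((r k.succ : ℝ) + 1) := Finset.prod_nonneg fun k _ => by positivity
    have h4 : (∏ k : Fin d, ((r k.succ : ℝ) + 1)) * (2 * r 0 * B) =
        (2 * Real.pi) ^ d * ((r 0 * ∏ k : Fin d, ((r k.succ : ℝ) + 1)) * ε) := by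
      rw [hB]
      ring
    rw [h4]
    refine mul_le_mul_of_nonneg_left (mul_le_mul_of_nonneg_right
      (mul_le_mul_of_nonneg_right (by linarith) h3) hε0) (by positivity)
  · exact mul_lt_mul_of_pos_left hmain (by positivity)

end unif

end Pool.Agent.Helper65K9.MD
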