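import Pool.Agent.Helper65K9.MD.Nu

set_option autoImplicit false

/-!
The data of one coordinate, with explicit bounds.
-/

namespace Pool.Agent.Helper65K9.MD

open Pool.Agent.Helper65K9.KT (card_le card_le_nat card_half)

open scoped Nat

theorem prod_seq {ι : Type*} (d : ι → ℝ) (ρ A : ℕ → ℝ) (hρ : ∀ k, 0 ≤ ρ k) (hA1 : A 1 = 2 / 9)
    (hA : ∀ s, 1 ≤ s → A (s + 1) = A s * ρ (s + 2)) : ∀ (s : ℕ), 1 ≤ s → ∀ (S : Finset ι),
    S.card = s + 1 → (∀ j ∈ S, 1 / 3 ≤ d j) → (∀ i ∈ S, ∀ j ∈ S, i ≠ j → 1 ≤ d i + d j) →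
    (∀ k, 3 ≤ k → ∀ T ⊆ S, T.card = k → ∃ j ∈ T, ρ k ≤ d j) → 0 ≤ A s ∧ A s ≤ ∏ j ∈ S, d j := by
  classical
  intro s hs
  induction s, hs using Nat.le_induction with
  | base =>
    intro S hS hd hp _
    obtain ⟨x, y, hxy, rfl⟩ := Finset.card_eq_two.1 hS
    rw [Finset.prod_pair hxy, hA1]
    have h1 := hd x (by simp)
    have h2 := hd y (by simp)
    have h3 := hp x (by simp) y (by simp) hxy
    refine ⟨by norm_num, ?_⟩
    nlinarith [mul_nonneg (sub_nonneg.2 h1) (sub_nonneg.2 h2)]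
  | succ s hs ih =>
    intro S hS hd hp hk
    obtain ⟨j, hj, hdj⟩ := hk (s + 2) (by omega) S (Finset.Subset.refl _) hS
    have h1 := ih (S.erase j) (by rw [Finset.card_erase_of_mem hj]; omega)
      (fun i hi => hd i (Finset.mem_of_mem_erase hi))
      (fun i hi l hl hil => hp i (Finset.mem_of_mem_erase hi) l (Finset.mem_of_mem_erase hl) hil)
      (fun k h3 T hT hTk => hk k h3 T (hT.trans (Finset.erase_subset _ _)) hTk)
    rw [← Finset.mul_prod_erase _ _ hj, hA s hs]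
    refine ⟨mul_nonneg h1.1 (hρ _), ?_⟩
    rw [mul_comm]
    exact mul_le_mul hdj h1.2 h1.1 ((hρ _).trans hdj)

theorem sum_ge {n : ℕ} {b : Fin n → ℂ} (hb : ∀ i j, i ≠ j → 1 ≤ ‖b i - b j‖) (x : ℂ) (i j : Fin n)
    (hij : i ≠ j) : 1 ≤ ‖x - b i‖ + ‖x - b j‖ := by
  have h1 : b i - b j = (x - b j) - (x - b i) := by ring
  have h2 := norm_sub_le (x - b j) (x - b i)
  rw [← h1] at h2
  linarith [hb i j hij]

/-- the bound for real points -/
noncomputable def AR (s : ℕ) : ℝ := 4 / 9 * (s ! / 2 ^ s)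

theorem AR_one : AR 1 = 2 / 9 := by
  unfold AR
  norm_num

theorem AR_succ (s : ℕ) : AR (s + 1) = AR s * (((s : ℝ) + 1) / 2) := by
  unfold AR
  rw [Nat.factorial_succ, pow_succ]
  push_cast
  field_simp

theorem AR_pos (s : ℕ) : 0 < AR s := by
  unfold AR
  positivity

theorem prod_AR {s : ℕ} (hs : 1 ≤ s) {b : Fin (s + 1) → ℂ} (hb : ∀ i j, i ≠ j → 1 ≤ ‖b i - b j‖)
    (him : ∀ i, (b i).im = 0) {x : ℂ} (hx : ∀ i, 1 / 3 ≤ ‖x - b i‖) :
    AR s ≤ ∏ i, ‖x - b i‖ := by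
  refine (prod_seq (fun i => ‖x - b i‖) (fun k => ((k : ℝ) - 1) / 2 ⊔ 0) AR
    (fun k => le_max_right _ _) AR_one (fun s hs => ?_) s hs Finset.univ (by simp)
    (fun i _ => hx i) (fun i _ j _ hij => sum_ge hb x i j hij) fun k hk T _ hT => ?_).2
  · rw [AR_succ]
    congr 1
    have hs' : (0 : ℝ) ≤ s := Nat.cast_nonneg s
    rw [max_eq_left (by push_cast; linarith)]
    push_cast
    ring
  · by_contra hcon
    push Not at hcon
    have hk' : (3 : ℝ) ≤ k := by exact_mod_cast hk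
    have h1 := card_real hb him x (k - 1) T (fun j hj => by
      have h2 := hcon j hj
      rw [max_eq_left (by linarith)] at h2
      rw [Nat.cast_sub (by omega)]
      push_cast
      exact h2)
    omega

theorem AC_pos {s : ℕ} (hs : 1 ≤ s) : 0 < AC s := by
  rcases le_or_gt s 24 with h | h
  · have := (AC_small s hs h).2.1
    linarith
  · induction s, (show 25 ≤ s from h) using Nat.le_induction with
    | base =>
      rw [AC_succ (by norm_num)]
      have h1 := (AC_small 24 (by norm_num) le_rfl).2.1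
      have h2 : (0 : ℝ) < ((rq (24 + 2) : ℚ) : ℝ) := by
        rw [rq_ge _ (by norm_num)]; norm_num
      exact mul_pos (by linarith) h2
    | succ m hm ih =>
      rw [AC_succ (by omega)]
      have h2 : (0 : ℝ) < ((rq (m + 2) : ℚ) : ℝ) := by
        rw [rq_ge _ (by omega)]; norm_num
      exact mul_pos (ih (by omega) (by omega)) h2

theorem prod_AC {s : ℕ} (hs : 1 ≤ s) {b : Fin (s + 1) → ℂ} (hb : ∀ i j, i ≠ j → 1 ≤ ‖b i - b j‖)
    {x : ℂ} (hx : ∀ i, 1 / 3 ≤ ‖x - b i‖) : AC s ≤ ∏ i, ‖x - b i‖ := by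
  classical
  refine (prod_seq (fun i => ‖x - b i‖) (fun k => ((rq k : ℚ) : ℝ)) AC
    (fun k => by exact_mod_cast rq_nonneg k) AC_one (fun s hs => AC_succ hs) s hs Finset.univ
    (by simp) (fun i _ => hx i) (fun i _ j _ hij => sum_ge hb x i j hij) fun k hk T _ hT => ?_).2
  by_contra hcon
  push Not at hcon
  rcases rq_cond k with h | h
  · have h' : ((rq k : ℚ) : ℝ) ≤ 1 / 2 := by
      have : ((rq k : ℚ) : ℝ) ≤ ((1 / 2 : ℚ) : ℝ) := by exact_mod_cast h
      push_cast at this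
      exact this
    have h1 := card_half hb x T (fun j hj => (hcon j hj).trans_le h')
    omega
  · have hne : T.Nonempty := Finset.card_pos.1 (by omega)
    obtain ⟨j0, hj0, hmax⟩ := Finset.exists_max_image T (fun i => ‖x - b i‖) hne
    have h1 := hcon j0 hj0
    obtain ⟨R, hR⟩ : ∃ R : ℝ, R = (‖x - b j0‖ + ((rq k : ℚ) : ℝ)) / 2 := ⟨_, rfl⟩
    have h2 : ‖x - b j0‖ < R := by rw [hR]; linarith
    have h3 : R < ((rq k : ℚ) : ℝ) := by rw [hR]; linarith
    have hR0 : 0 ≤ R := (norm_nonneg _).trans h2.le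
    have h4 := card_le hb x hR0 T (fun j hj => (hmax j hj).trans_lt h2)
    have h5 : (2 * ((rq k : ℚ) : ℝ) + 1) ^ 2 ≤ k := by exact_mod_cast h
    rw [hT] at h4
    nlinarith

theorem AC_large (s : ℕ) (hs : 24 ≤ s) : 19 * 2 ^ (s - 24) ≤ AC s := by
  induction s, hs using Nat.le_induction with
  | base =>
    have := (AC_small 24 (by norm_num) le_rfl).2.2 rfl
    norm_num
    exact this
  | succ m hm ih =>
    rw [AC_succ (by omega), rq_ge _ (by omega), Nat.sub_add_comm hm, pow_succ]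
    push_cast
    linarith

theorem two_pow_ge (m : ℕ) : (m : ℝ) + 1 ≤ 2 ^ m := by
  have h := one_add_mul_le_pow (a := (1 : ℝ)) (by norm_num) m
  norm_num at h
  linarith

/-- all complex cases -/
theorem AC_all (s : ℕ) (hs : 1 ≤ s) : (s : ℝ) + 1 ≤ 500 * AC s ∧ 1 / 60 ≤ AC s := by
  rcases le_or_gt s 24 with h | h
  · exact ⟨(AC_small s hs h).1, (AC_small s hs h).2.1⟩
  · have h1 := AC_large s h.le
    have h2 := two_pow_ge (s - 24)
    rw [Nat.cast_sub h.le] at h2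
    push_cast at h2
    have h3 : (24 : ℝ) < s := by exact_mod_cast h
    constructor <;> nlinarith

theorem AC_33 (s : ℕ) (hs : 33 ≤ s) : 250 * ((s : ℝ) + 1) ≤ AC s := by
  have h1 := AC_large s (by omega)
  have h2 := two_pow_ge (s - 33)
  have h3 : s - 24 = (s - 33) + 9 := by omega
  rw [h3, pow_add] at h1
  rw [Nat.cast_sub hs] at h2
  push_cast at h2
  norm_num at h1
  have h4 : (33 : ℝ) ≤ s := by exact_mod_cast hs
  nlinarith

theorem AR_bound (s : ℕ) (hs : 1 ≤ s) : (s : ℝ) + 1 ≤ 27 / 2 * AR s := by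
  rcases Nat.lt_or_ge s 2 with h | h
  · have : s = 1 := by omega
    subst this
    rw [AR_one]
    norm_num
  · induction s, h using Nat.le_induction with
    | base =>
      rw [AR_succ, AR_one]
      norm_num
    | succ m hm ih =>
      rw [AR_succ]
      have h1 := ih (by omega)
      have h2 : (2 : ℝ) ≤ m := by exact_mod_cast hm
      have h3 := AR_pos m
      push_cast
      nlinarith

theorem AR_8 (s : ℕ) (hs : 8 ≤ s) : 70 * ((s : ℝ) + 1) ≤ 9 * AR s := by
  induction s, hs using Nat.le_induction with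
  | base =>
    unfold AR
    norm_num [Nat.factorial]
  | succ m hm ih =>
    rw [AR_succ]
    have h2 : (8 : ℝ) ≤ m := by exact_mod_cast hm
    have h3 := AR_pos m
    push_cast
    nlinarith

/-- The data of one coordinate: complex points. -/
theorem coordC {s : ℕ} (hs : 1 ≤ s) {b : Fin (s + 1) → ℂ} (hb : ∀ i j, i ≠ j → 1 ≤ ‖b i - b j‖) :
    ∃ W g : ℝ, 0 < W ∧ 0 ≤ g ∧ (∀ x, (∀ i, 1 / 3 ≤ ‖x - b i‖) → W ≤ ∏ i, ‖x - b i‖) ∧
      (∀ v : Fin (s + 1) → ℝ, ∑ i, v i = 0 →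
        g * ∑ i, v i ^ 2 ≤ ∑ i, ∑ j, v i * v j * LL b i j) ∧
      (s : ℝ) + 1 ≤ 500 * W ∧ 1 / 60 ≤ W ∧
      (33 ≤ s → 500 * ((s : ℝ) + 1) < W * g ∧ 500 ≤ W) := by
  by_cases h : 33 ≤ s
  · have hs' : (33 : ℝ) ≤ s := by exact_mod_cast h
    have hA := AC_33 s h
    have hg12 : 3 * Real.log 2 ≤ Real.log (5 / 4) * 12 := by
      have h1 : 3 * Real.log 2 = Real.log (2 ^ 3) := by rw [Real.log_pow]; push_cast; ring
      have h2 : Real.log (5 / 4) * 12 = Real.log ((5 / 4) ^ 12) := by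
        rw [Real.log_pow]; push_cast; ring
      rw [h1, h2]
      exact Real.log_le_log (by norm_num) (by norm_num)
    have h54 : 0 ≤ Real.log (5 / 4) := Real.log_nonneg (by norm_num)
    have hge : Real.log (5 / 4) * 12 ≤ Real.log (5 / 4) * ((s + 1) - 2 * (11 : ℕ)) := by
      refine mul_le_mul_of_nonneg_left ?_ h54
      push_cast
      linarith
    have hl2 := Real.log_two_gt_d9
    have hg2 : 2.07 < Real.log (5 / 4) * ((s + 1) - 2 * (11 : ℕ)) := by linarith
    refine ⟨AC s, Real.log (5 / 4) * ((s + 1) - 2 * (11 : ℕ)), AC_pos hs, by linarith,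
      fun x hx => prod_AC hs hb hx, fun v hv => ?_, (AC_all s hs).1, (AC_all s hs).2,
      fun _ => ⟨?_, by linarith⟩⟩
    · exact gap hb (by norm_num) (fun i T hT => card_le_nat (N := 12) hb (b i) (by norm_num)
        (by norm_num) T hT) v hv
    · have h3 := mul_lt_mul_of_pos_left hg2 (AC_pos hs)
      nlinarith
  · exact ⟨AC s, 0, AC_pos hs, le_rfl, fun x hx => prod_AC hs hb hx, fun v _ => by
      rw [zero_mul]; exact psd hb v, (AC_all s hs).1, (AC_all s hs).2, fun h' => absurd h' h⟩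

/-- The data of one coordinate: real points. -/
theorem coordR {s : ℕ} (hs : 1 ≤ s) {b : Fin (s + 1) → ℂ} (hb : ∀ i j, i ≠ j → 1 ≤ ‖b i - b j‖)
    (him : ∀ i, (b i).im = 0) :
    ∃ W g : ℝ, 0 < W ∧ 0 ≤ g ∧ (∀ x, (∀ i, 1 / 3 ≤ ‖x - b i‖) → W ≤ ∏ i, ‖x - b i‖) ∧
      (∀ v : Fin (s + 1) → ℝ, ∑ i, v i = 0 →
        g * ∑ i, v i ^ 2 ≤ ∑ i, ∑ j, v i * v j * LL b i j) ∧
      (s : ℝ) + 1 ≤ 27 / 2 * W ∧ (8 ≤ s → 27 / 2 * ((s : ℝ) + 1) < W * g ∧ 27 / 2 ≤ W) := by
  by_cases h : 8 ≤ s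
  · have hs' : (8 : ℝ) ≤ s := by exact_mod_cast h
    have hA := AR_8 s h
    have hl2 := Real.log_two_gt_d9
    have hge : Real.log 2 * 3 ≤ Real.log 2 * ((s + 1) - 2 * (3 : ℕ)) := by
      refine mul_le_mul_of_nonneg_left ?_ (by linarith)
      push_cast
      linarith
    have hg2 : 2.07 < Real.log 2 * ((s + 1) - 2 * (3 : ℕ)) :=
      lt_of_lt_of_le (by linarith) hge
    refine ⟨AR s, Real.log 2 * ((s + 1) - 2 * (3 : ℕ)), AR_pos s,
      le_trans (by norm_num) hg2.le,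
      fun x hx => prod_AR hs hb him hx, fun v hv => ?_, AR_bound s hs, fun _ => ⟨?_, by linarith⟩⟩
    · exact gap hb (by norm_num) (fun i T hT => card_real hb him (b i) 4 T (by
        intro j hj
        have := hT j hj
        push_cast
        linarith)) v hv
    · have h3 := mul_lt_mul_of_pos_left hg2 (AR_pos s)
      nlinarith
  · exact ⟨AR s, 0, AR_pos s, le_rfl, fun x hx => prod_AR hs hb him hx, fun v _ => by
      rw [zero_mul]; exact psd hb v, AR_bound s hs, fun h' => absurd h' h⟩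

end Pool.Agent.Helper65K9.MD
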