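import Pool.Agent.Helper65K9.MD.To
import Pool.Agent.Helper65K9.MD.Nv

set_option autoImplicit false

/-!
The hypersurfaces `λ ∏_k ∏_i (x_k - a_{k,i}) = 1`: smoothness and tori, for points with the mutual
distances at least `D_k`.
-/

namespace Pool.Agent.Helper65K9.MD

open Polynomial

open Pool.Agent.TH826.MK (Torus symb)

open Pool.Agent.TH826.MH (CRing fpol ent eqn eqn_eq pderiv_eqn eval_aeval qq)

section smooth

variable {K : Type*} [Field K] {n : ℕ} {r : Fin n → ℕ}

/-- smoothness -/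
theorem smooth (hn : 0 < n) (σ : K →+* ℂ) (a : ∀ k, Fin (r k + 1) → K) {δ W : Fin n → ℝ}
    (hδ : ∀ k, 0 < δ k) (ha : ∀ k i j, i ≠ j → 2 * δ k ≤ ‖σ (a k i) - σ (a k j)‖)
    (hW0 : ∀ k, 0 < W k)
    (hW : ∀ k x, (∀ i, δ k ≤ ‖x - σ (a k i)‖) → W k ≤ ∏ i, ‖x - σ (a k i)‖) {lam : K}
    (hlam : 1 < ‖σ lam‖ * ∏ k, W k)
    (x : Fin n → ℂ) (hx : MvPolynomial.eval₂ σ x (eqn lam a) = 0) :
    ∃ k, MvPolynomial.eval₂ σ x (MvPolynomial.pderiv k (eqn lam a)) ≠ 0 := by
  have hmap : ∀ k, (qq (a k)).map σ = qq fun i => σ (a k i) := by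
    intro k
    unfold qq
    rw [Polynomial.map_prod]
    refine Finset.prod_congr rfl fun i _ => ?_
    rw [Polynomial.map_sub, map_X, map_C]
  have h1 : σ lam * ∏ k, (qq (a k)).eval₂ σ (x k) = 1 := by
    rw [eqn_eq lam a ⟨0, hn⟩, MvPolynomial.eval₂_sub, MvPolynomial.eval₂_mul,
      MvPolynomial.eval₂_mul, MvPolynomial.eval₂_C, MvPolynomial.eval₂_one, eval_aeval,
      MvPolynomial.eval₂_prod] at hx
    rw [← Finset.mul_prod_erase _ _ (Finset.mem_univ (⟨0, hn⟩ : Fin n))]
    simp only [eval_aeval] at hx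
    linear_combination hx
  by_contra hcon
  push Not at hcon
  have hcrit : ∀ k, (derivative (qq (a k))).eval₂ σ (x k) = 0 := by
    intro k
    have h2 := hcon k
    rw [pderiv_eqn, MvPolynomial.eval₂_mul, MvPolynomial.eval₂_mul, MvPolynomial.eval₂_C,
      eval_aeval, MvPolynomial.eval₂_prod] at h2
    simp only [eval_aeval] at h2
    have h3 : σ lam ≠ 0 ∧ ∏ k, (qq (a k)).eval₂ σ (x k) ≠ 0 := by
      rw [← mul_ne_zero_iff, h1]
      exact one_ne_zero
    have h4 : ∏ l ∈ Finset.univ.erase k, (qq (a l)).eval₂ σ (x l) ≠ 0 :=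
      Finset.prod_ne_zero_iff.2 fun l _ => (Finset.prod_ne_zero_iff.1 h3.2) l (Finset.mem_univ l)
    rcases mul_eq_zero.1 h2 with h5 | h5
    · exact absurd h5 h3.1
    · rcases mul_eq_zero.1 h5 with h6 | h6
      · exact h6
      · exact absurd h6 h4
  have hcrit' : ∀ k, (derivative (qq fun i => σ (a k i))).eval (x k) = 0 := by
    intro k
    rw [← hmap, derivative_map, eval_map]
    exact hcrit k
  have hge : ∀ k, W k ≤ ‖(qq (a k)).eval₂ σ (x k)‖ := by
    intro k
    rw [← eval_map, hmap]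
    exact le_crit _ (hδ k) (ha k) (hW k) (hW0 k) (x k) (hcrit' k)
  have h5 : ∏ k, W k ≤ ‖∏ k, (qq (a k)).eval₂ σ (x k)‖ := by
    rw [norm_prod]
    exact Finset.prod_le_prod (fun k _ => (hW0 k).le) fun k _ => hge k
  have h6 := congrArg norm h1
  rw [norm_mul, norm_one] at h6
  have h7 := mul_le_mul_of_nonneg_left h5 (norm_nonneg (σ lam))
  linarith

end smooth

/-- the theorem with a numerical criterion -/
theorem main {K : Type*} [Field K] {σ : K →+* ℂ} {lam : K} {d : ℕ} (hd : 0 < d)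
    {r : Fin (d + 1) → ℕ} {a : ∀ k, Fin (r k + 1) → K} {D : Fin (d + 1) → ℝ}
    (hD : ∀ k, 0 < D k) (hsep : ∀ k i j, i ≠ j → D k ≤ ‖σ (a k i) - σ (a k j)‖)
    (hlam0 : σ lam ≠ 0) {W' g : Fin (d + 1) → ℝ} (hW'0 : ∀ k, 0 < W' k)
    (hW' : ∀ k, ∀ x : ℂ, (∀ i, 1 / 3 ≤ ‖x - σ (a k i) / (D k : ℂ)‖) →
      W' k ≤ ∏ i, ‖x - σ (a k i) / (D k : ℂ)‖)
    (hg : ∀ k, ∀ v : Fin (r k + 1) → ℝ, ∑ i, v i = 0 →
        g k * ∑ i, v i ^ 2 ≤ ∑ i, ∑ j, v i * v j * LL (fun i => σ (a k i) / (D k : ℂ)) i j)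
    {L : ℝ} (hL : L = ‖σ lam‖ * ∏ k, D k ^ (r k + 1)) (hone : 1 < L * ∏ k, W' k)
    (hmain : ∏ k, ((r k : ℝ) + 1) < (Real.log L + ∑ k, g k) * (L * ∏ k, W' k)) :
    (∀ x : Fin (d + 1) → ℂ, MvPolynomial.eval₂ σ x (eqn lam a) = 0 →
      ∃ k, MvPolynomial.eval₂ σ x (MvPolynomial.pderiv k (eqn lam a)) ≠ 0) ∧
    ∃ Γ : (∀ k, Fin (r k)) → Torus (CRing lam a) d,
      (∀ t θ (x : K), (Γ t).e θ (fpol lam a (MvPolynomial.C x)) = σ x) ∧
      (Matrix.of fun t i : (∀ k, Fin (r k)) => (Γ t).reg (symb (ent lam a i))).det ≠ 0 := by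
  classical
  have hDc : ∀ k, (D k : ℂ) ≠ 0 := fun k => Complex.ofReal_ne_zero.2 (hD k).ne'
  have hDn : ∀ k, ‖(D k : ℂ)‖ = D k := fun k => by
    rw [Complex.norm_real, Real.norm_of_nonneg (hD k).le]
  have hDP : 0 < ∏ k, D k ^ (r k + 1) := Finset.prod_pos fun k _ => pow_pos (hD k) _
  have hl0 : 0 < ‖σ lam‖ := norm_pos_iff.2 hlam0
  have hinj : ∀ k, Function.Injective fun i => σ (a k i) := by
    intro k i j hij
    by_contra hne
    have h := hsep k i j hne
    simp only at hij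
    rw [hij, sub_self, norm_zero] at h
    linarith [hD k]
  set W : Fin (d + 1) → ℝ := fun k => D k ^ (r k + 1) * W' k with hWd
  have hW0 : ∀ k, 0 < W k := fun k => mul_pos (pow_pos (hD k) _) (hW'0 k)
  have hW : ∀ k x, (∀ i, D k / 3 ≤ ‖x - σ (a k i)‖) → W k ≤ ∏ i, ‖x - σ (a k i)‖ := by
    intro k x hx
    have h1 : ∀ i, ‖x / (D k : ℂ) - σ (a k i) / (D k : ℂ)‖ = ‖x - σ (a k i)‖ / D k := by
      intro i
      rw [← sub_div, norm_div, hDn]
    have h2 := hW' k (x / (D k : ℂ)) (fun i => by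
      rw [h1, le_div_iff₀ (hD k)]
      have := hx i
      linarith)
    simp only [h1] at h2
    rw [Finset.prod_div_distrib, Finset.prod_const, Finset.card_univ, Fintype.card_fin,
      le_div_iff₀ (pow_pos (hD k) _)] at h2
    simp only [hWd]
    linarith
  have hkey : ‖σ lam‖ * ∏ k, W k = L * ∏ k, W' k := by
    simp only [hWd]
    rw [Finset.prod_mul_distrib, hL]
    ring
  rw [← hkey] at hone hmain
  refine ⟨fun x hx => smooth (by omega) σ a (δ := fun k => D k / 3) (fun k => by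
    have := hD k
    positivity) (fun k i j hij => by
      have h1 := hsep k i j hij
      have h2 := hD k
      linarith) hW0 hW hone x hx, ?_⟩
  refine exists_tori_scaled hd (δ := fun k => D k / 3) (fun k => by
    have := hD k
    positivity) (fun k i j hij => by
      have h1 := hsep k i j hij
      linarith) hlam0 hW0 hW
    (γ := fun k => g k + (r k + 1) * Real.log (D k)) (fun k v hv => ?_) hone ?_
  · have h1 := hg k v hv
    rw [quad_LL_scale (fun i => σ (a k i)) (hDc k) (hinj k) v hv, hDn] at h1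
    linarith
  · have h1 : Real.log ‖σ lam‖ + ∑ k, (g k + (r k + 1) * Real.log (D k)) =
        Real.log L + ∑ k, g k := by
      rw [hL, Real.log_mul hl0.ne' hDP.ne', Real.log_prod (fun k _ => (pow_pos (hD k) _).ne'),
        Finset.sum_add_distrib]
      simp only [Real.log_pow]
      push_cast
      ring
    rw [h1]
    exact hmain

/-- the points divided by `D` -/
theorem sep_div {K : Type*} [Field K] (σ : K →+* ℂ) {s : ℕ} {a : Fin (s + 1) → K} {D : ℝ}
    (hD : 0 < D) (hsep : ∀ i j, i ≠ j → D ≤ ‖σ (a i) - σ (a j)‖) (i j : Fin (s + 1))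
    (hij : i ≠ j) : 1 ≤ ‖σ (a i) / (D : ℂ) - σ (a j) / (D : ℂ)‖ := by
  rw [← sub_div, norm_div, Complex.norm_real, Real.norm_of_nonneg hD.le, le_div_iff₀ hD, one_mul]
  exact hsep i j hij

/-- curves -/
theorem curve {K : Type*} [Field K] {σ : K →+* ℂ} {lam : K}
    {r : Fin 2 → ℕ} (hr : ∀ k, 1 ≤ r k) {a : ∀ k, Fin (r k + 1) → K} {D : Fin 2 → ℝ}
    (hD : ∀ k, 0 < D k) (hsep : ∀ k i j, i ≠ j → D k ≤ ‖σ (a k i) - σ (a k j)‖)
    (hlam0 : σ lam ≠ 0) {L : ℝ} (hL : L = ‖σ lam‖ * ∏ k, D k ^ (r k + 1)) (hL1 : 1 ≤ L)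
    (h : (25000 ≤ L ∨ ∃ k, 33 ≤ r k) ∨
      ((∀ k i, (σ (a k i)).im = 0) ∧ (48 ≤ L ∨ ∃ k, 8 ≤ r k))) :
    (∀ x : Fin 2 → ℂ, MvPolynomial.eval₂ σ x (eqn lam a) = 0 →
      ∃ k, MvPolynomial.eval₂ σ x (MvPolynomial.pderiv k (eqn lam a)) ≠ 0) ∧
    ∃ Γ : (∀ k, Fin (r k)) → Torus (CRing lam a) 1,
      (∀ t θ (x : K), (Γ t).e θ (fpol lam a (MvPolynomial.C x)) = σ x) ∧
      (Matrix.of fun t i : (∀ k, Fin (r k)) => (Γ t).reg (symb (ent lam a i))).det ≠ 0 := by
  have hb := fun k => sep_div σ (a := a k) (hD k) (hsep k)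
  have hlog0 : 0 ≤ Real.log L := Real.log_nonneg hL1
  have hr' : ∀ k, (1 : ℝ) ≤ r k := fun k => by exact_mod_cast hr k
  have hr0 := hr' 0
  have hr1 := hr' 1
  -- a common form of the criterion
  have key : ∀ (c : ℝ), 0 < c → ∀ (W g : Fin 2 → ℝ), (∀ k, 0 < W k) → (∀ k, 0 ≤ g k) →
      (∀ k, (r k : ℝ) + 1 ≤ c * W k) → (c ^ 2 < L * Real.log L ∨
        ∃ k, c * ((r k : ℝ) + 1) < W k * g k) →
      ∏ k, ((r k : ℝ) + 1) < (Real.log L + ∑ k, g k) * (L * ∏ k, W k) := by
    intro c hc W g hW hg hcW hor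
    simp only [Fin.prod_univ_two, Fin.sum_univ_two]
    have hW0 := hW 0
    have hW1 := hW 1
    have hg0 := hg 0
    have hg1 := hg 1
    have hc0 := hcW 0
    have hc1 := hcW 1
    have hWW : 0 < W 0 * W 1 := mul_pos hW0 hW1
    rcases hor with h1 | ⟨k, hk⟩
    · calc ((r 0 : ℝ) + 1) * ((r 1 : ℝ) + 1) ≤ (c * W 0) * (c * W 1) :=
            mul_le_mul hc0 hc1 (by positivity) (by positivity)
        _ = c ^ 2 * (W 0 * W 1) := by ring
        _ < (L * Real.log L) * (W 0 * W 1) := mul_lt_mul_of_pos_right h1 hWW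
        _ = Real.log L * (L * (W 0 * W 1)) := by ring
        _ ≤ _ := mul_le_mul_of_nonneg_right (by linarith) (by positivity)
    · have hkk : ((r 0 : ℝ) + 1) * ((r 1 : ℝ) + 1) < (g 0 + g 1) * (W 0 * W 1) := by
        have hcases : k = 0 ∨ k = 1 := by
          rcases k with ⟨k, hk2⟩
          have : k = 0 ∨ k = 1 := by omega
          rcases this with rfl | rfl
          · exact Or.inl rfl
          · exact Or.inr rfl
        rcases hcases with rfl | rfl
        · calc ((r 0 : ℝ) + 1) * ((r 1 : ℝ) + 1) ≤ ((r 0 : ℝ) + 1) * (c * W 1) :=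
              mul_le_mul_of_nonneg_left hc1 (by positivity)
            _ = (c * ((r 0 : ℝ) + 1)) * W 1 := by ring
            _ < (W 0 * g 0) * W 1 := mul_lt_mul_of_pos_right hk hW1
            _ = g 0 * (W 0 * W 1) := by ring
            _ ≤ _ := mul_le_mul_of_nonneg_right (by linarith) hWW.le
        · calc ((r 0 : ℝ) + 1) * ((r 1 : ℝ) + 1) ≤ (c * W 0) * ((r 1 : ℝ) + 1) :=
              mul_le_mul_of_nonneg_right hc0 (by positivity)
            _ = (c * ((r 1 : ℝ) + 1)) * W 0 := by ring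
            _ < (W 1 * g 1) * W 0 := mul_lt_mul_of_pos_right hk hW0
            _ = g 1 * (W 0 * W 1) := by ring
            _ ≤ _ := mul_le_mul_of_nonneg_right (by linarith) hWW.le
      refine hkk.trans_le ?_
      refine mul_le_mul (by linarith) ?_ hWW.le (by linarith)
      calc W 0 * W 1 = 1 * (W 0 * W 1) := (one_mul _).symm
        _ ≤ _ := mul_le_mul_of_nonneg_right hL1 hWW.le
  rcases h with h | ⟨him, h⟩
  · choose W g hW0 hg0 hW hg hc h60 h33 using fun k => coordC (hr k) (hb k)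
    have hWa := hW0 0
    have hWb := hW0 1
    refine main (d := 1) one_pos hD hsep hlam0 hW0 hW hg hL ?_
      (key 500 (by norm_num) W g hW0 hg0 hc ?_)
    · have hP : (∏ k : Fin (1 + 1), W k) = W 0 * W 1 := Fin.prod_univ_two _
      rw [hP]
      have h1 := h60 0
      have h2 := h60 1
      rcases h with h | ⟨k, hk⟩
      · have h3 : (1 / 60 : ℝ) * (1 / 60) ≤ W 0 * W 1 :=
          mul_le_mul h1 h2 (by norm_num) hWa.le
        nlinarith
      · have h4 := (h33 k hk).2
        have hcases : k = 0 ∨ k = 1 := by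
          rcases k with ⟨k, hk2⟩
          have : k = 0 ∨ k = 1 := by omega
          rcases this with rfl | rfl
          · exact Or.inl rfl
          · exact Or.inr rfl
        have h5 : 1 < W 0 * W 1 := by
          rcases hcases with rfl | rfl <;> nlinarith
        nlinarith
    · rcases h with h | ⟨k, hk⟩
      · left
        have h3 : (10.01 : ℝ) ≤ Real.log L := by
          rw [Real.le_log_iff_exp_le (by linarith)]
          refine le_trans ?_ h
          have h4 := Real.exp_one_lt_d9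
          have h5 : Real.exp 10.01 = Real.exp 1 ^ 10 * Real.exp 0.01 := by
            rw [← Real.exp_nat_mul, ← Real.exp_add]
            norm_num
          have h6 : Real.exp 1 ^ 10 ≤ 2.7182818286 ^ 10 :=
            pow_le_pow_left₀ (Real.exp_pos 1).le h4.le 10
          have h7 : Real.exp 0.01 ≤ 1.02 := by
            have h8 := Real.exp_bound_div_one_sub_of_interval (x := 0.01) (by norm_num)
              (by norm_num)
            refine h8.trans ?_
            norm_num
          rw [h5]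
          calc Real.exp 1 ^ 10 * Real.exp 0.01 ≤ 2.7182818286 ^ 10 * 1.02 :=
                mul_le_mul h6 h7 (Real.exp_pos _).le (by norm_num)
            _ ≤ 25000 := by norm_num
        nlinarith
      · right
        exact ⟨k, (h33 k hk).1⟩
  · have him' : ∀ k i, (σ (a k i) / (D k : ℂ)).im = 0 := by
      intro k i
      rw [Complex.div_ofReal_im, him, zero_div]
    choose W g hW0 hg0 hW hg hc h8 using fun k => coordR (hr k) (hb k) (him' k)
    have hWa := hW0 0
    have hWb := hW0 1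
    refine main (d := 1) one_pos hD hsep hlam0 hW0 hW hg hL ?_
      (key (27 / 2) (by norm_num) W g hW0 hg0 hc ?_)
    · have hP : (∏ k : Fin (1 + 1), W k) = W 0 * W 1 := Fin.prod_univ_two _
      rw [hP]
      have h1 : 4 / 27 ≤ W 0 := by linarith [hc 0]
      have h2 : 4 / 27 ≤ W 1 := by linarith [hc 1]
      rcases h with h | ⟨k, hk⟩
      · have h3 : (4 / 27 : ℝ) * (4 / 27) ≤ W 0 * W 1 :=
          mul_le_mul h1 h2 (by norm_num) hWa.le
        nlinarith
      · have h4 := (h8 k hk).2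
        have hcases : k = 0 ∨ k = 1 := by
          rcases k with ⟨k, hk2⟩
          have : k = 0 ∨ k = 1 := by omega
          rcases this with rfl | rfl
          · exact Or.inl rfl
          · exact Or.inr rfl
        have h5 : 1 < W 0 * W 1 := by
          have h6 := (h8 k hk).1
          rcases hcases with rfl | rfl <;> nlinarith
        nlinarith
    · rcases h with h | ⟨k, hk⟩
      · left
        have h3 : (3.8 : ℝ) ≤ Real.log L := by
          rw [Real.le_log_iff_exp_le (by linarith)]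
          refine le_trans ?_ h
          have h4 := Real.exp_one_lt_d9
          have h5 : Real.exp 3.8 = Real.exp 1 ^ 4 / Real.exp 0.2 := by
            rw [← Real.exp_nat_mul, ← Real.exp_sub]
            norm_num
          have h6 : Real.exp 1 ^ 4 ≤ 2.7182818286 ^ 4 :=
            pow_le_pow_left₀ (Real.exp_pos 1).le h4.le 4
          have h7 : (1.2 : ℝ) ≤ Real.exp 0.2 := by
            have := Real.add_one_le_exp (0.2 : ℝ)
            linarith
          rw [h5, div_le_iff₀ (Real.exp_pos _)]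
          calc Real.exp 1 ^ 4 ≤ 2.7182818286 ^ 4 := h6
            _ ≤ 48 * 1.2 := by norm_num
            _ ≤ _ := by linarith
        nlinarith
      · right
        exact ⟨k, (h8 k hk).1⟩

end Pool.Agent.Helper65K9.MD
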