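import Pool.Agent.Helper65K9.MD.Pk

set_option autoImplicit false

/-!
Explicit lower bounds for the product of the distances, for real and for complex points.
-/

namespace Pool.Agent.Helper65K9.MD

open Pool.Agent.Helper65K9.KT (card_le card_le_nat card_half)

open scoped Nat

/-- radii: a disc of radius `< rq k` contains less than `k` of the points, `k ≥ 2` -/
def rq : ℕ → ℚ
  | 0 => 1 / 2
  | 1 => 1 / 2
  | 2 => 1 / 2
  | 3 => 1 / 2
  | 4 => 1 / 2
  | 5 => 309 / 500
  | 6 => 181 / 250
  | 7 => 411 / 500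
  | 8 => 457 / 500
  | 9 => 1 / 1
  | 10 => 1081 / 1000
  | 11 => 579 / 500
  | 12 => 154 / 125
  | 13 => 651 / 500
  | 14 => 137 / 100
  | 15 => 359 / 250
  | 16 => 3 / 2
  | 17 => 1561 / 1000
  | 18 => 1621 / 1000
  | 19 => 1679 / 1000
  | 20 => 217 / 125
  | 21 => 1791 / 1000
  | 22 => 369 / 200
  | 23 => 1897 / 1000
  | 24 => 1949 / 1000
  | _ => 2

theorem rq_ge (k : ℕ) (hk : 25 ≤ k) : rq k = 2 := by
  obtain ⟨m, rfl⟩ : ∃ m, k = m + 25 := ⟨k - 25, by omega⟩
  rfl

theorem rq_nonneg (k : ℕ) : 0 ≤ rq k := by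
  rcases le_or_gt 25 k with h | h
  · rw [rq_ge k h]; norm_num
  · interval_cases k <;> norm_num [rq]

theorem rq_cond (k : ℕ) : rq k ≤ 1 / 2 ∨ (2 * rq k + 1) ^ 2 ≤ k := by
  rcases le_or_gt 25 k with h | h
  · right
    rw [rq_ge k h]
    have : (25 : ℚ) ≤ k := by exact_mod_cast h
    norm_num
    linarith
  · interval_cases k <;> norm_num [rq]

/-- the bound for complex points -/
noncomputable def AC (s : ℕ) : ℝ := 2 / 9 * ∏ m ∈ Finset.range (s - 1), ((rq (m + 3) : ℚ) : ℝ)

theorem AC_one : AC 1 = 2 / 9 := by simp [AC]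

theorem AC_succ {s : ℕ} (hs : 1 ≤ s) : AC (s + 1) = AC s * ((rq (s + 2) : ℚ) : ℝ) := by
  obtain ⟨t, rfl⟩ : ∃ t, s = t + 1 := ⟨s - 1, by omega⟩
  unfold AC
  rw [Nat.add_sub_cancel, Nat.add_sub_cancel, Finset.prod_range_succ]
  ring

theorem AC_small (s : ℕ) (h1 : 1 ≤ s) (h2 : s ≤ 24) :
    (s : ℝ) + 1 ≤ 500 * AC s ∧ 1 / 60 ≤ AC s ∧ (s = 24 → 19 ≤ AC s) := by
  have a1 : (2 / 9 : ℝ) ≤ AC 1 := AC_one.ge
  have a2 : (1111111 / 10000000 : ℝ) ≤ AC 2 := by
    have h := AC_succ (s := 1) (by norm_num)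
    norm_num [rq] at h
    rw [h]
    linarith
  have a3 : (1111111 / 20000000 : ℝ) ≤ AC 3 := by
    have h := AC_succ (s := 2) (by norm_num)
    norm_num [rq] at h
    rw [h]
    linarith
  have a4 : (858333 / 25000000 : ℝ) ≤ AC 4 := by
    have h := AC_succ (s := 3) (by norm_num)
    norm_num [rq] at h
    rw [h]
    linarith
  have a5 : (621433 / 25000000 : ℝ) ≤ AC 5 := by
    have h := AC_succ (s := 4) (by norm_num)
    norm_num [rq] at h
    rw [h]
    linarith
  have a6 : (2043271 / 100000000 : ℝ) ≤ AC 6 := by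
    have h := AC_succ (s := 5) (by norm_num)
    norm_num [rq] at h
    rw [h]
    linarith
  have a7 : (1867549 / 100000000 : ℝ) ≤ AC 7 := by
    have h := AC_succ (s := 6) (by norm_num)
    norm_num [rq] at h
    rw [h]
    linarith
  have a8 : (1867549 / 100000000 : ℝ) ≤ AC 8 := by
    have h := AC_succ (s := 7) (by norm_num)
    norm_num [rq] at h
    rw [h]
    linarith
  have a9 : (100941 / 5000000 : ℝ) ≤ AC 9 := by
    have h := AC_succ (s := 8) (by norm_num)
    norm_num [rq] at h
    rw [h]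
    linarith
  have a10 : (2337793 / 100000000 : ℝ) ≤ AC 10 := by
    have h := AC_succ (s := 9) (by norm_num)
    norm_num [rq] at h
    rw [h]
    linarith
  have a11 : (18001 / 625000 : ℝ) ≤ AC 11 := by
    have h := AC_succ (s := 10) (by norm_num)
    norm_num [rq] at h
    rw [h]
    linarith
  have a12 : (234373 / 6250000 : ℝ) ≤ AC 12 := by
    have h := AC_succ (s := 11) (by norm_num)
    norm_num [rq] at h
    rw [h]
    linarith
  have a13 : (321091 / 6250000 : ℝ) ≤ AC 13 := by
    have h := AC_succ (s := 12) (by norm_num)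
    norm_num [rq] at h
    rw [h]
    linarith
  have a14 : (3688693 / 50000000 : ℝ) ≤ AC 14 := by
    have h := AC_succ (s := 13) (by norm_num)
    norm_num [rq] at h
    rw [h]
    linarith
  have a15 : (1106607 / 10000000 : ℝ) ≤ AC 15 := by
    have h := AC_succ (s := 14) (by norm_num)
    norm_num [rq] at h
    rw [h]
    linarith
  have a16 : (1727413 / 10000000 : ℝ) ≤ AC 16 := by
    have h := AC_succ (s := 15) (by norm_num)
    norm_num [rq] at h
    rw [h]
    linarith
  have a17 : (350017 / 1250000 : ℝ) ≤ AC 17 := by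
    have h := AC_succ (s := 16) (by norm_num)
    norm_num [rq] at h
    rw [h]
    linarith
  have a18 : (1175357 / 2500000 : ℝ) ≤ AC 18 := by
    have h := AC_succ (s := 17) (by norm_num)
    norm_num [rq] at h
    rw [h]
    linarith
  have a19 : (8161679 / 10000000 : ℝ) ≤ AC 19 := by
    have h := AC_succ (s := 18) (by norm_num)
    norm_num [rq] at h
    rw [h]
    linarith
  have a20 : (365439 / 250000 : ℝ) ≤ AC 20 := by
    have h := AC_succ (s := 19) (by norm_num)
    norm_num [rq] at h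
    rw [h]
    linarith
  have a21 : (2696939 / 1000000 : ℝ) ≤ AC 21 := by
    have h := AC_succ (s := 20) (by norm_num)
    norm_num [rq] at h
    rw [h]
    linarith
  have a22 : (5116093 / 1000000 : ℝ) ≤ AC 22 := by
    have h := AC_succ (s := 21) (by norm_num)
    norm_num [rq] at h
    rw [h]
    linarith
  have a23 : (1994253 / 200000 : ℝ) ≤ AC 23 := by
    have h := AC_succ (s := 22) (by norm_num)
    norm_num [rq] at h
    rw [h]
    linarith
  have a24 : (1994253 / 100000 : ℝ) ≤ AC 24 := by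
    have h := AC_succ (s := 23) (by norm_num)
    norm_num [rq] at h
    rw [h]
    linarith
  interval_cases s <;> refine ⟨?_, ?_, ?_⟩ <;> first | (intro h; omega) | (push_cast; linarith) | (intro _; linarith)

end Pool.Agent.Helper65K9.MD
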