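import Pool.Agent.Helper65K9.KT.Pack
import Pool.Agent.Helper65K9.MD.QF

set_option autoImplicit false

/-!
Packing: products of distances and the spectral gap of the logarithmic Laplacian, for points with
mutual distances at least `1` in the plane or on a line.
-/

namespace Pool.Agent.Helper65K9.MD

open Pool.Agent.Helper65K9.KT (card_le_nat card_half layer log_div' log_four)

open scoped Nat

section real

variable {n : ℕ}

/-- an open interval of length `k` contains at most `k` points with mutual distances `≥ 1` -/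
theorem card_real {b : Fin n → ℂ} (hb : ∀ i j, i ≠ j → 1 ≤ ‖b i - b j‖) (him : ∀ i, (b i).im = 0)
    (x : ℂ) (k : ℕ) (S : Finset (Fin n)) (hS : ∀ j ∈ S, ‖x - b j‖ < k / 2) : S.card ≤ k := by
  classical
  have hre : ∀ i, b i = ((b i).re : ℂ) := fun i => by
    apply Complex.ext
    · simp
    · simp [him i]
  have h1 : ∀ j ∈ S, |x.re - (b j).re| < k / 2 := by
    intro j hj
    have h2 := Complex.abs_re_le_norm (x - b j)
    rw [Complex.sub_re] at h2
    exact h2.trans_lt (hS j hj)
  rw [← Finset.card_range k]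
  refine Finset.card_le_card_of_injOn (fun j => (⌊(b j).re - (x.re - k / 2)⌋).toNat)
    (fun j hj => ?_) ?_
  · have h2 := abs_lt.1 (h1 j hj)
    rw [Finset.coe_range, Set.mem_Iio]
    have h3 : 0 ≤ (b j).re - (x.re - k / 2) := by linarith [h2.2]
    have h4 : (b j).re - (x.re - k / 2) < (k : ℤ) := by
      push_cast
      linarith [h2.1]
    have h5 : ⌊(b j).re - (x.re - k / 2)⌋ < (k : ℤ) := Int.floor_lt.2 h4
    have h6 : 0 ≤ ⌊(b j).re - (x.re - k / 2)⌋ := Int.floor_nonneg.2 h3
    simp only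
    omega
  · intro i hi j hj hij
    by_contra hne
    have h2 := abs_lt.1 (h1 i hi)
    have h2' := abs_lt.1 (h1 j hj)
    have h3 : 0 ≤ (b i).re - (x.re - k / 2) := by linarith [h2.2]
    have h3' : 0 ≤ (b j).re - (x.re - k / 2) := by linarith [h2'.2]
    have h6 : 0 ≤ ⌊(b i).re - (x.re - k / 2)⌋ := Int.floor_nonneg.2 h3
    have h6' : 0 ≤ ⌊(b j).re - (x.re - k / 2)⌋ := Int.floor_nonneg.2 h3'
    simp only at hij
    have h7 : ⌊(b i).re - (x.re - k / 2)⌋ = ⌊(b j).re - (x.re - k / 2)⌋ := by omega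
    have h8 := Int.abs_sub_lt_one_of_floor_eq_floor h7
    have h9 := hb i j hne
    rw [hre i, hre j, ← Complex.ofReal_sub, Complex.norm_real, Real.norm_eq_abs] at h9
    have h10 : (b i).re - (x.re - k / 2) - ((b j).re - (x.re - k / 2)) = (b i).re - (b j).re := by
      ring
    rw [h10] at h8
    linarith

theorem prod_of_count {ι : Type*} (d : ι → ℝ) : ∀ (m : ℕ) (S : Finset ι), S.card = m + 1 →
    (∀ j ∈ S, 1 / 3 ≤ d j) → (∀ (k : ℕ) (T : Finset ι), T ⊆ S → (∀ j ∈ T, d j < k / 2) →
      T.card ≤ k) → (m ! : ℝ) / (3 * 2 ^ m) ≤ ∏ j ∈ S, d j := by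
  classical
  intro m
  induction m with
  | zero =>
    intro S hS hd _
    obtain ⟨a, rfl⟩ := Finset.card_eq_one.1 hS
    rw [Finset.prod_singleton]
    have := hd a (Finset.mem_singleton_self a)
    simpa using this
  | succ m ih =>
    intro S hS hd hc
    obtain ⟨j, hj, hdj⟩ : ∃ j ∈ S, ((m : ℝ) + 1) / 2 ≤ d j := by
      by_contra hcon
      push Not at hcon
      have h1 := hc (m + 1) S (Finset.Subset.refl _) (fun j hj => by
        push_cast
        exact hcon j hj)
      omega
    have h1 := ih (S.erase j) (by rw [Finset.card_erase_of_mem hj]; omega)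
      (fun i hi => hd i (Finset.mem_of_mem_erase hi))
      (fun k T hT hTd => hc k T (hT.trans (Finset.erase_subset _ _)) hTd)
    rw [← Finset.mul_prod_erase _ _ hj]
    have h2 : ((m + 1)! : ℝ) / (3 * 2 ^ (m + 1)) = ((m : ℝ) + 1) / 2 * ((m ! : ℝ) / (3 * 2 ^ m)) := by
      rw [Nat.factorial_succ]
      push_cast
      rw [pow_succ]
      field_simp
    rw [h2]
    exact mul_le_mul hdj h1 (by positivity) (by linarith [show (0:ℝ) ≤ m from Nat.cast_nonneg m])

theorem prod_real {s : ℕ} {b : Fin (s + 1) → ℂ} (hb : ∀ i j, i ≠ j → 1 ≤ ‖b i - b j‖)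
    (him : ∀ i, (b i).im = 0) {x : ℂ} (hx : ∀ i, 1 / 3 ≤ ‖x - b i‖) :
    (s ! : ℝ) / (3 * 2 ^ s) ≤ ∏ i, ‖x - b i‖ :=
  prod_of_count (fun i => ‖x - b i‖) s Finset.univ (by simp) (fun i _ => hx i)
    fun k T _ hT => card_real hb him x k T hT

theorem quad_LL {s : ℕ} (b : Fin (s + 1) → ℂ) (v : Fin (s + 1) → ℝ) :
    ∑ i, ∑ j, v i * v j * LL b i j =
      1 / 2 * ∑ i, ∑ j, Real.log ‖b i - b j‖ * (v i - v j) ^ 2 := by
  refine sum_sq (fun i j => Real.log ‖b i - b j‖) (fun i j => ?_) v
  rw [norm_sub_rev]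

/-- the logarithmic Laplacian is positive semidefinite -/
theorem psd {s : ℕ} {b : Fin (s + 1) → ℂ} (hb : ∀ i j, i ≠ j → 1 ≤ ‖b i - b j‖)
    (v : Fin (s + 1) → ℝ) : 0 ≤ ∑ i, ∑ j, v i * v j * LL b i j := by
  rw [quad_LL]
  refine mul_nonneg (by norm_num) (Finset.sum_nonneg fun i _ => Finset.sum_nonneg fun j _ => ?_)
  by_cases h : i = j
  · subst h
    simp
  · exact mul_nonneg (Real.log_nonneg (hb i j h)) (sq_nonneg _)

/-- the spectral gap -/
theorem gap {s : ℕ} {b : Fin (s + 1) → ℂ} (hb : ∀ i j, i ≠ j → 1 ≤ ‖b i - b j‖) {R : ℝ}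
    (hR : 1 ≤ R) {N : ℕ}
    (hN : ∀ i (T : Finset (Fin (s + 1))), (∀ j ∈ T, ‖b i - b j‖ < R) → T.card ≤ N + 1)
    (v : Fin (s + 1) → ℝ) (hv : ∑ i, v i = 0) :
    (Real.log R * ((s + 1) - 2 * N)) * ∑ i, v i ^ 2 ≤ ∑ i, ∑ j, v i * v j * LL b i j := by
  classical
  rw [quad_LL]
  have h1 := gap_of (fun i j => Real.log ‖b i - b j‖) (fun i j => by
    rw [norm_sub_rev]) (c0 := 0) (c := Real.log R) (Real.log_nonneg hR) (N := N)
    (fun i j hij => Real.log_nonneg (hb i j hij)) (fun i => by
      set T : Finset (Fin (s + 1)) :=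
        Finset.univ.filter fun j => i ≠ j ∧ Real.log ‖b i - b j‖ < 0 + Real.log R with hT
      have h2 := hN i (insert i T) (fun j hj => by
        rcases Finset.mem_insert.1 hj with h | h
        · rw [h, sub_self, norm_zero]
          linarith
        · obtain ⟨-, h3, h4⟩ := Finset.mem_filter.1 h
          rw [zero_add] at h4
          have h5 : 0 < ‖b i - b j‖ := by linarith [hb i j h3]
          exact (Real.log_lt_log_iff h5 (by linarith)).1 h4)
      rw [Finset.card_insert_of_notMem (fun h => (Finset.mem_filter.1 h).2.1 rfl)] at h2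
      omega) v hv
  rw [mul_zero, zero_add] at h1
  exact h1

end real

section complex

variable {n : ℕ}

/-- the product of the distances from a point outside of the discs of radius `1/3` -/
theorem prod_ge (hn : 31 ≤ n) {b : Fin n → ℂ} (hb : ∀ i j, i ≠ j → 1 ≤ ‖b i - b j‖) {x : ℂ}
    (hx : ∀ j, 1 / 3 ≤ ‖x - b j‖) : (n : ℝ) ≤ ∏ j, ‖x - b j‖ := by
  classical
  have hpos : ∀ j, 0 < ‖x - b j‖ := fun j => lt_of_lt_of_le (by norm_num) (hx j)
  have hcard : (Finset.univ : Finset (Fin n)).card = n := by simp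
  set r : Fin n → ℝ := fun j => ‖x - b j‖ with hr
  have hfil : ∀ (c : ℝ) (j : Fin n), j ∈ (Finset.univ.filter fun j => r j < c) → ‖x - b j‖ < c :=
    fun c j hj => (Finset.mem_filter.1 hj).2
  have s0 : ∑ j, Real.log (min (r j) (1 / 3)) = n * Real.log (1 / 3) := by
    have : ∀ j ∈ (Finset.univ : Finset (Fin n)), Real.log (min (r j) (1 / 3)) =
        Real.log (1 / 3) := fun j _ => by rw [min_eq_right (hx j)]
    rw [Finset.sum_congr rfl this, Finset.sum_const, hcard, nsmul_eq_mul]
  have s1 := layer (N := 1) Finset.univ r (a := 1 / 3) (c := 1 / 2) (by norm_num) (by norm_num)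
    (fun j _ => hpos j) (card_half hb x _ (hfil _))
  have s2 := layer (N := 6) Finset.univ r (a := 1 / 2) (c := 3 / 4) (by norm_num) (by norm_num)
    (fun j _ => hpos j) (card_le_nat hb x (by norm_num) (by norm_num) _ (hfil _))
  have s3 := layer (N := 9) Finset.univ r (a := 3 / 4) (c := 1) (by norm_num) (by norm_num)
    (fun j _ => hpos j) (card_le_nat hb x (by norm_num) (by norm_num) _ (hfil _))
  have s4 := layer (N := 12) Finset.univ r (a := 1) (c := 5 / 4) (by norm_num) (by norm_num)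
    (fun j _ => hpos j) (card_le_nat hb x (by norm_num) (by norm_num) _ (hfil _))
  have s5 := layer (N := 16) Finset.univ r (a := 5 / 4) (c := 3 / 2) (by norm_num) (by norm_num)
    (fun j _ => hpos j) (card_le_nat hb x (by norm_num) (by norm_num) _ (hfil _))
  have s6 := layer (N := 20) Finset.univ r (a := 3 / 2) (c := 7 / 4) (by norm_num) (by norm_num)
    (fun j _ => hpos j) (card_le_nat hb x (by norm_num) (by norm_num) _ (hfil _))
  have s7 := layer (N := 25) Finset.univ r (a := 7 / 4) (c := 2) (by norm_num) (by norm_num)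
    (fun j _ => hpos j) (card_le_nat hb x (by norm_num) (by norm_num) _ (hfil _))
  have s8 : ∑ j, Real.log (min (r j) 2) ≤ ∑ j, Real.log (r j) :=
    Finset.sum_le_sum fun j _ => Real.log_le_log (lt_min (hpos j) two_pos) (min_le_left _ _)
  rw [hcard] at s1 s2 s3 s4 s5 s6 s7
  have e1 : Real.log (1 / 3) = -Real.log 3 := by rw [one_div, Real.log_inv]
  have e2 : Real.log (1 / 2) = -Real.log 2 := by rw [one_div, Real.log_inv]
  have e3 : Real.log (3 / 4) = Real.log 3 - 2 * Real.log 2 := by
    rw [log_div' (by norm_num) (by norm_num), log_four]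
  have e4 : Real.log (5 / 4) = Real.log 5 - 2 * Real.log 2 := by
    rw [log_div' (by norm_num) (by norm_num), log_four]
  have e5 : Real.log (3 / 2) = Real.log 3 - Real.log 2 := log_div' (by norm_num) (by norm_num)
  have e6 : Real.log (7 / 4) = Real.log 7 - 2 * Real.log 2 := by
    rw [log_div' (by norm_num) (by norm_num), log_four]
  rw [e1] at s0 s1
  rw [e2] at s1 s2
  rw [e3] at s2 s3
  rw [Real.log_one] at s3 s4
  rw [e4] at s4 s5
  rw [e5] at s5 s6
  rw [e6] at s6 s7
  have hl2 : 0 < Real.log 2 := Real.log_pos (by norm_num)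
  -- the total
  have htot : ((n : ℝ) - 31) * Real.log 2 + (6 * Real.log 3 + 4 * Real.log 5 + 5 * Real.log 7 -
      27 * Real.log 2) ≤ ∑ j, Real.log (r j) := by
    push_cast at s1 s2 s3 s4 s5 s6 s7
    linarith
  have hnum : Real.log 31 ≤
      6 * Real.log 3 + 4 * Real.log 5 + 5 * Real.log 7 - 27 * Real.log 2 := by
    have h1 : 6 * Real.log 3 + 4 * Real.log 5 + 5 * Real.log 7 =
        Real.log (3 ^ 6 * 5 ^ 4 * 7 ^ 5) := by
      rw [Real.log_mul (by norm_num) (by norm_num), Real.log_mul (by norm_num) (by norm_num),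
        Real.log_pow, Real.log_pow, Real.log_pow]
      push_cast; ring
    have h2 : 27 * Real.log 2 = Real.log (2 ^ 27) := by
      rw [Real.log_pow]; push_cast; ring
    rw [h1, h2, ← Real.log_div (by norm_num) (by norm_num)]
    exact Real.log_le_log (by norm_num) (by norm_num)
  have hpow : Real.log n ≤ ((n : ℝ) - 31) * Real.log 2 + Real.log 31 := by
    obtain ⟨m, rfl⟩ : ∃ m, n = m + 31 := ⟨n - 31, by omega⟩
    have h1 : (((m + 31 : ℕ) : ℝ) - 31) * Real.log 2 + Real.log 31 = Real.log (2 ^ m * 31) := by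
      rw [Real.log_mul (by positivity) (by norm_num), Real.log_pow]
      push_cast; ring
    rw [h1]
    refine Real.log_le_log (by positivity) ?_
    clear * -
    induction m with
    | zero => norm_num
    | succ k ih =>
      rw [pow_succ]
      push_cast at ih ⊢
      have hk : (0 : ℝ) ≤ k := Nat.cast_nonneg k
      linarith
  have hfin : Real.log n ≤ ∑ j, Real.log (r j) := by linarith
  rw [← Real.log_prod (fun j _ => (hpos j).ne')] at hfin
  have hn0 : (0 : ℝ) < n := by
    have : 0 < n := by omega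
    exact_mod_cast this
  exact (Real.log_le_log_iff hn0 (Finset.prod_pos fun j _ => hpos j)).1 hfin

end complex

/-- The data of one coordinate. -/
theorem coord {s : ℕ} {b : Fin (s + 1) → ℂ} (hb : ∀ i j, i ≠ j → 1 ≤ ‖b i - b j‖) {c : ℝ}
    (hc1 : 1 ≤ c) (h : 30 ≤ s ∨ ((∀ i, (b i).im = 0) ∧ 3 * ((s : ℝ) + 1) * 2 ^ s ≤ c * s !)) :
    ∃ W g : ℝ, 0 < W ∧ (s : ℝ) + 1 ≤ c * W ∧ 0 ≤ g ∧
      (∀ x, (∀ i, 1 / 3 ≤ ‖x - b i‖) → W ≤ ∏ i, ‖x - b i‖) ∧
      (∀ v : Fin (s + 1) → ℝ, ∑ i, v i = 0 →
        g * ∑ i, v i ^ 2 ≤ ∑ i, ∑ j, v i * v j * LL b i j) ∧ (1 < g ∨ 28 / 15 ≤ c) := by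
  have hs0 : (0 : ℝ) ≤ s := Nat.cast_nonneg s
  rcases h with h | ⟨him, h⟩
  · have hs : (30 : ℝ) ≤ s := by exact_mod_cast h
    refine ⟨s + 1, Real.log (5 / 4) * ((s + 1) - 2 * (11 : ℕ)), by positivity, ?_, ?_,
      fun x hx => ?_, fun v hv => ?_, Or.inl ?_⟩
    · nlinarith
    · refine mul_nonneg (Real.log_nonneg (by norm_num)) ?_
      push_cast
      linarith
    · have := prod_ge (by omega : 31 ≤ s + 1) hb hx
      push_cast at this
      exact this
    · exact gap hb (by norm_num) (fun i T hT => card_le_nat (N := 12) hb (b i) (by norm_num)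
        (by norm_num) T hT) v hv
    · have h1 : (1 : ℝ) < Real.log (5 / 4) * 9 := by
        have h2 : Real.log (5 / 4) * 9 = Real.log ((5 / 4) ^ 9) := by
          rw [Real.log_pow]; push_cast; ring
        rw [h2, Real.lt_log_iff_exp_lt (by norm_num)]
        have := Real.exp_one_lt_d9
        norm_num at this ⊢
        linarith
      have h3 : Real.log (5 / 4) * 9 ≤ Real.log (5 / 4) * ((s + 1) - 2 * (11 : ℕ)) := by
        refine mul_le_mul_of_nonneg_left ?_ (Real.log_nonneg (by norm_num))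
        push_cast
        linarith
      linarith
  · have hf : (0 : ℝ) < s ! := by exact_mod_cast Nat.factorial_pos s
    have hW : (s : ℝ) + 1 ≤ c * ((s ! : ℝ) / (3 * 2 ^ s)) := by
      rw [mul_div_assoc', le_div_iff₀ (by positivity)]
      linarith
    by_cases h7 : 7 ≤ s
    · have hs : (7 : ℝ) ≤ s := by exact_mod_cast h7
      refine ⟨(s ! : ℝ) / (3 * 2 ^ s), Real.log 2 * ((s + 1) - 2 * (3 : ℕ)), by positivity, hW, ?_,
        fun x hx => prod_real hb him hx, fun v hv => ?_, Or.inl ?_⟩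
      · refine mul_nonneg (Real.log_nonneg (by norm_num)) ?_
        push_cast
        linarith
      · exact gap hb (by norm_num) (fun i T hT => card_real hb him (b i) 4 T (by
          intro j hj
          have := hT j hj
          push_cast
          linarith)) v hv
      · have h1 : (1 : ℝ) < Real.log 2 * 2 := by
          have := Real.log_two_gt_d9
          linarith
        have h3 : Real.log 2 * 2 ≤ Real.log 2 * ((s + 1) - 2 * (3 : ℕ)) := by
          refine mul_le_mul_of_nonneg_left ?_ (Real.log_nonneg (by norm_num))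
          push_cast
          linarith
        linarith
    · refine ⟨(s ! : ℝ) / (3 * 2 ^ s), 0, by positivity, hW, le_rfl,
        fun x hx => prod_real hb him hx, fun v hv => ?_, Or.inr ?_⟩
      · rw [zero_mul]
        exact psd hb v
      · have h6 : s ≤ 6 := by omega
        clear hW hf him
        interval_cases s <;> norm_num [Nat.factorial] at h ⊢ <;> linarith

end Pool.Agent.Helper65K9.MD
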