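import Pool.Agent.TH826.UM.Scale

set_option autoImplicit false

/-!
Branches of `y` in `∏ (y - β_j) = w` and critical points, under the hypothesis that the product is
large outside of the discs.
-/

namespace Pool.Agent.Helper65K9.MD

open Polynomial Metric

open Pool.Agent.TH826.UH

open Pool.Agent.TH826.MH (qq)

theorem exists_G {n : ℕ} {β : Fin (n + 1) → ℂ} (hβ : ∀ i j, i ≠ j → 2 ≤ ‖β i - β j‖) {W ω : ℝ}
    (hW : ∀ x, (∀ i, 1 ≤ ‖x - β i‖) → W ≤ ∏ i, ‖x - β i‖) (hω0 : 0 < ω) (hω : ω < W) :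
    ∃ G : Fin (n + 1) → ℂ → ℂ,
      (∀ l w, ‖w‖ ≤ ω → AnalyticAt ℂ (G l) w) ∧
      (∀ l w, ‖w‖ ≤ ω → ∏ j, (G l w - β j) = w) ∧
      (∀ j w, ‖w‖ ≤ ω → ∏ l, (β j - G l w) = -w) ∧
      (∀ l w, ‖w‖ ≤ ω → ‖G l w - β l‖ ≤ ‖w‖ * W⁻¹) := by
  classical
  have hW0 : 0 < W := hω0.trans hω
  obtain ⟨L, hL⟩ : ∃ L : ℂ, L = ((2 / ω : ℝ) : ℂ) := ⟨_, rfl⟩
  have hLn : ‖L‖ = 2 / ω := by
    rw [hL, Complex.norm_real, Real.norm_of_nonneg (by positivity)]
  have hL0 : L ≠ 0 := by
    rw [← norm_pos_iff, hLn]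
    positivity
  obtain ⟨η, H⟩ := sepd_fam (g := n) (b := β) (lam := L) (t := 0)
    (F := C 0 + C L * ∏ i, (X - C (β i))) hL0 rfl (ρ := 1) (B := W) one_pos
    (fun i j hij => by linarith [hβ i j hij]) (by simp) (fun x hx => hW x hx)
    (by rw [norm_zero, add_zero, hLn, div_mul_eq_mul_div, lt_div_iff₀ hω0]; nlinarith)
  obtain ⟨y, han, hdisc, hprod, -⟩ := H.exists_branches
  have hlead := leadingCoeff_fam (g := n) (b := β) (lam := L) (t := 0)
    (F := C 0 + C L * ∏ i, (X - C (β i))) hL0 rfl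
  have hu : ∀ w : ℂ, ‖w‖ ≤ ω → L * w ∈ ball (0 : ℂ) (2 + η) := by
    intro w hw
    rw [mem_ball_zero_iff, norm_mul, hLn]
    have h2 := H.eta
    have h3 : 2 / ω * ‖w‖ ≤ 2 := by
      rw [div_mul_eq_mul_div, div_le_iff₀ hω0]
      linarith
    linarith
  have hfac : ∀ (w : ℂ), ‖w‖ ≤ ω → ∀ z : ℂ,
      ∏ j, (z - β j) - w = ∏ l, (z - y l (L * w)) := by
    intro w hw z
    have h1 := congrArg (fun p => p.eval z) (hprod _ (hu w hw))
    rw [hlead] at h1
    simp only [eval_sub, eval_add, eval_mul, eval_C, eval_prod, eval_X, zero_add] at h1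
    refine mul_left_cancel₀ hL0 ?_
    linear_combination h1
  have hval : ∀ l w, ‖w‖ ≤ ω → ∏ j, (y l (L * w) - β j) = w := by
    intro l w hw
    have h1 := hfac w hw (y l (L * w))
    have h2 : ∏ l', (y l (L * w) - y l' (L * w)) = 0 :=
      Finset.prod_eq_zero (Finset.mem_univ l) (sub_self _)
    rw [h2] at h1
    exact sub_eq_zero.1 h1
  refine ⟨fun l w => y l (L * w), fun l w hw => ?_, hval, fun j w hw => ?_, fun l w hw => ?_⟩
  · exact (han l _ (hu w hw)).fun_comp (by fun_prop)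
  · rw [← hfac w hw (β j), Finset.prod_eq_zero (Finset.mem_univ j) (sub_self _), zero_sub]
  · set Yl : ℂ := y l (L * w) with hYl
    have h1 := hval l w hw
    rw [← hYl] at h1
    have hd1 : ‖Yl - β l‖ < 1 := hdisc l _ (hu w hw)
    have hfar : ∀ x ∈ closedBall (β l) 1, ∀ j ∈ Finset.univ.erase l, 1 ≤ ‖x - β j‖ := by
      intro x hx j hj
      rw [mem_closedBall, dist_eq_norm] at hx
      have h3 := hβ j l (Finset.ne_of_mem_erase hj)
      have h4 : ‖β j - β l‖ ≤ ‖x - β l‖ + ‖x - β j‖ := by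
        have : β j - β l = (x - β l) - (x - β j) := by ring
        rw [this]
        exact norm_sub_le _ _
      linarith
    have hne : ∀ x ∈ closedBall (β l) 1, ∏ j ∈ Finset.univ.erase l, (x - β j) ≠ 0 := by
      intro x hx
      refine Finset.prod_ne_zero_iff.2 fun j hj => ?_
      rw [← norm_pos_iff]
      linarith [hfar x hx j hj]
    have hmax : ‖(∏ j ∈ Finset.univ.erase l, (Yl - β j))⁻¹‖ ≤ W⁻¹ := by
      refine Complex.norm_le_of_forall_mem_frontier_norm_le (U := ball (β l) 1)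
        (f := fun x => (∏ j ∈ Finset.univ.erase l, (x - β j))⁻¹) isBounded_ball ?_ ?_ ?_
      · refine DifferentiableOn.diffContOnCl ?_
        rw [closure_ball _ one_ne_zero]
        refine DifferentiableOn.fun_inv ?_ hne
        fun_prop
      · intro x hx
        rw [frontier_ball _ one_ne_zero, mem_sphere, dist_eq_norm] at hx
        have hxc : x ∈ closedBall (β l) 1 := by
          rw [mem_closedBall, dist_eq_norm, hx]
        rw [norm_inv]
        refine inv_anti₀ hW0 ?_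
        have h3 := hW x (fun i => by
          by_cases hi : i = l
          · rw [hi, hx]
          · exact hfar x hxc i (Finset.mem_erase.2 ⟨hi, Finset.mem_univ _⟩))
        rw [← Finset.mul_prod_erase _ _ (Finset.mem_univ l), hx, one_mul] at h3
        rw [norm_prod]
        exact h3
      · rw [closure_ball _ one_ne_zero, mem_closedBall, dist_eq_norm]
        exact hd1.le
    rw [← Finset.mul_prod_erase _ _ (Finset.mem_univ l)] at h1
    have hY : Yl ∈ closedBall (β l) 1 := by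
      rw [mem_closedBall, dist_eq_norm]; exact hd1.le
    have h5 : Yl - β l = w * (∏ j ∈ Finset.univ.erase l, (Yl - β j))⁻¹ := by
      rw [← h1, mul_assoc, mul_inv_cancel₀ (hne _ hY), mul_one]
    rw [h5, norm_mul]
    exact mul_le_mul_of_nonneg_left hmax (norm_nonneg _)

/-- If the polynomial has absolute value at least `W` outside of the discs, then this holds at its
critical points. -/
theorem le_crit {m : ℕ} (β : Fin (m + 1) → ℂ) {δ W : ℝ} (hδ : 0 < δ)
    (hβ : ∀ i j, i ≠ j → 2 * δ ≤ ‖β i - β j‖)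
    (hW : ∀ x, (∀ i, δ ≤ ‖x - β i‖) → W ≤ ∏ i, ‖x - β i‖) (hW0 : 0 < W) (c : ℂ)
    (hc : (derivative (qq β)).eval c = 0) : W ≤ ‖(qq β).eval c‖ := by
  by_contra hcon
  push Not at hcon
  set v : ℝ := ‖(qq β).eval c‖ with hv
  have hv0 : 0 ≤ v := norm_nonneg _
  obtain ⟨ω, hω⟩ : ∃ ω : ℝ, ω = (v + W) / 2 := ⟨_, rfl⟩
  have hω0 : 0 < ω := by rw [hω]; linarith
  have hωW : ω < W := by rw [hω]; linarith
  have hvω : v < ω := by rw [hω]; linarith
  obtain ⟨L, hL⟩ : ∃ L : ℂ, L = ((2 / ω : ℝ) : ℂ) := ⟨_, rfl⟩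
  have hLn : ‖L‖ = 2 / ω := by
    rw [hL, Complex.norm_real, Real.norm_of_nonneg (by positivity)]
  have hL0 : L ≠ 0 := by
    rw [← norm_pos_iff, hLn]
    positivity
  obtain ⟨η, H⟩ := sepd_fam (g := m) (b := β) (lam := L) (t := 0)
    (F := C 0 + C L * ∏ i, (X - C (β i))) hL0 rfl (ρ := δ) (B := W) hδ
    hβ (by simp) (fun x hx => hW x hx)
    (by rw [norm_zero, add_zero, hLn, div_mul_eq_mul_div, lt_div_iff₀ hω0]; nlinarith)
  obtain ⟨y, han, hdisc, hprod, hder⟩ := H.exists_branches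
  have hlead := leadingCoeff_fam (g := m) (b := β) (lam := L) (t := 0)
    (F := C 0 + C L * ∏ i, (X - C (β i))) hL0 rfl
  have hF : (C 0 + C L * ∏ i, (X - C (β i)) : ℂ[X]) = C L * qq β := by
    rw [map_zero, zero_add]
    rfl
  have hmem : L * (qq β).eval c ∈ ball (0 : ℂ) (2 + η) := by
    rw [mem_ball_zero_iff, norm_mul, hLn, ← hv]
    have h2 := H.eta
    have h3 : 2 / ω * v ≤ 2 := by
      rw [div_mul_eq_mul_div, div_le_iff₀ hω0]
      linarith
    linarith
  have h1 := congrArg (fun p => p.eval c) (hprod _ hmem)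
  rw [hlead, hF] at h1
  simp only [eval_sub, eval_mul, eval_C, eval_prod, eval_X, sub_self] at h1
  have h2 := (mul_eq_zero.1 h1.symm).resolve_left hL0
  obtain ⟨j, -, hj⟩ := Finset.prod_eq_zero_iff.1 h2
  have h3 := hder j _ hmem
  rw [← sub_eq_zero.1 hj, hF, derivative_C_mul, eval_mul, hc, mul_zero] at h3
  exact h3 rfl

end Pool.Agent.Helper65K9.MD
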