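import Pool.Agent.Helper65K9.MD.Rt
import Pool.Agent.Helper65K9.MD.Cr

set_option autoImplicit false

/-!
The tori on the hypersurface `λ ∏_k ∏_i (x_k - a_{k,i}) = 1`.
-/

namespace Pool.Agent.Helper65K9.MD

open Pool.Agent.TH826.MK

open Pool.Agent.TH826.MH (CRing fpol ent ux mkT mkT_ux evX_fpol good_w)

open Pool.Agent.TH826.UM (ww ff FF one_le_norm_ff good_FF per_ww pair_expand RR comap comap_reg phi
  phi_fpol phi0_C phi_ent sl sa)

theorem norm_FF_ge' {d : ℕ} {s : Fin d → ℕ} {β : ∀ k : Fin d, Fin (s k + 1) → ℂ}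
    (hβ : ∀ k i j, i ≠ j → 3 ≤ ‖β k i - β k j‖) {W : Fin d → ℝ} (hW0 : ∀ k, 0 < W k)
    (hW : ∀ k x, (∀ i, 1 ≤ ‖x - β k i‖) → W k ≤ ∏ i, ‖x - β k i‖) (q : ∀ k, Fin (s k + 1))
    (θ : Fin d → ℝ) : ∏ k, W k ≤ ‖FF β q θ‖ := by
  unfold FF
  rw [norm_prod]
  refine Finset.prod_le_prod (fun k _ => (hW0 k).le) fun k _ => ?_
  have h1 : ∀ i, ff β q k i (θ k) = (circ 1 (θ k) + β k (q k)) - β k i := by
    intro i
    unfold ff
    ring
  rw [norm_prod]
  simp only [h1]
  refine hW k _ fun i => ?_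
  rw [← h1]
  exact one_le_norm_ff hβ q k i (θ k)

theorem exists_tori {K : Type*} [Field K] {σ : K →+* ℂ} {lam : K} {d : ℕ} (hd : 0 < d)
    {r : Fin (d + 1) → ℕ} {a : ∀ k, Fin (r k + 1) → K}
    (hsep : ∀ k i j, i ≠ j → 3 ≤ ‖σ (a k i) - σ (a k j)‖) (hlam0 : σ lam ≠ 0)
    {W : Fin (d + 1) → ℝ} (hW0 : ∀ k, 0 < W k)
    (hW : ∀ k x, (∀ i, 1 ≤ ‖x - σ (a k i)‖) → W k ≤ ∏ i, ‖x - σ (a k i)‖)
    {γ : Fin (d + 1) → ℝ}
    (hγ : ∀ k, ∀ v : Fin (r k + 1) → ℝ, ∑ i, v i = 0 →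
      γ k * ∑ i, v i ^ 2 ≤ ∑ i, ∑ j, v i * v j * LL (fun i => σ (a k i)) i j)
    (hone : 1 < ‖σ lam‖ * ∏ k, W k)
    (hmain : ∏ k, ((r k : ℝ) + 1) < (Real.log ‖σ lam‖ + ∑ k, γ k) * (‖σ lam‖ * ∏ k, W k)) :
    ∃ Γ : (∀ k, Fin (r k)) → Torus (CRing lam a) d,
      (∀ t θ (x : K), (Γ t).e θ (fpol lam a (MvPolynomial.C x)) = σ x) ∧
      (Matrix.of fun t i : (∀ k, Fin (r k)) => (Γ t).reg (symb (ent lam a i))).det ≠ 0 := by
  classical
  set β0 : Fin (r 0 + 1) → ℂ := fun i => σ (a 0 i) with hβ0d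
  set β : ∀ k : Fin d, Fin (r k.succ + 1) → ℂ := fun k i => σ (a k.succ i) with hβd
  have hβ0 : ∀ i j, i ≠ j → 3 ≤ ‖β0 i - β0 j‖ := hsep 0
  have hβ : ∀ k i j, i ≠ j → 3 ≤ ‖β k i - β k j‖ := fun k => hsep k.succ
  have hμpos : 0 < ‖σ lam‖ := norm_pos_iff.2 hlam0
  have hWs : 0 < ∏ k : Fin d, W k.succ := Finset.prod_pos fun k _ => hW0 _
  set ω : ℝ := (‖σ lam‖ * ∏ k : Fin d, W k.succ)⁻¹ with hωd
  have hω0 : 0 < ω := by positivity
  rw [Fin.prod_univ_succ (fun k => W k)] at hone hmain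
  have hωW : ω < W 0 := by
    rw [hωd, inv_lt_iff_one_lt_mul₀ (by positivity)]
    linarith
  have hw : ∀ q θ, ‖ww (σ lam) β q θ‖ ≤ ω := by
    intro q θ
    unfold ww
    rw [norm_inv, norm_mul, hωd]
    refine inv_anti₀ (by positivity) (mul_le_mul_of_nonneg_left ?_ hμpos.le)
    exact norm_FF_ge' hβ (fun k => hW0 k.succ) (fun k => hW k.succ) q θ
  obtain ⟨G, hG1, hG2, hG3, hG4⟩ := exists_G (β := β0) (fun i j hij => by linarith [hβ0 i j hij])
    (hW 0) hω0 hωW
  set ε : ℝ := ω * (W 0)⁻¹ with hεd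
  have hW00 := hW0 0
  have hε0 : 0 ≤ ε := by positivity
  have hε1 : ε ≤ 1 := by
    rw [hεd, ← div_eq_mul_inv, div_le_one hW00]
    exact hωW.le
  have hG4' : ∀ l w, ‖w‖ ≤ ω → ‖G l w - β0 l‖ ≤ ε := fun l w hw =>
    (hG4 l w hw).trans (mul_le_mul_of_nonneg_right hw (by positivity))
  have hmain' : (∏ k, ((r k : ℝ) + 1)) * ε < Real.log ‖σ lam‖ + ∑ k, γ k := by
    have h1 : ε = (‖σ lam‖ * (W 0 * ∏ k : Fin d, W k.succ))⁻¹ := by
      rw [hεd, hωd, ← mul_inv]
      congr 1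
      ring
    have h2 : 0 < ‖σ lam‖ * (W 0 * ∏ k : Fin d, W k.succ) := by positivity
    rw [h1, ← div_eq_mul_inv, div_lt_iff₀ h2]
    exact hmain
  have hinj := inj_RR (β := fun k i => σ (a k i)) (μ := σ lam) (G := G) hd hsep hlam0 hw hε0 hε1
    hG1 hG2 hG4' hγ hmain'
  have gw : ∀ q, Good (ww (σ lam) β q) := fun q => good_w (good_FF hβ q) hlam0
  set X : (∀ k, Fin (r k + 1)) → (Fin d → ℝ) → (Fin (d + 1) → ℂ) := fun q θ =>
    Fin.cons (G (q 0) (ww (σ lam) β (fun k => q k.succ) θ))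
      (fun k => circ 1 (θ k) + β k (q k.succ)) with hX
  have hX0 : ∀ q θ, X q θ 0 = G (q 0) (ww (σ lam) β (fun k => q k.succ) θ) := fun q θ => rfl
  have hXs : ∀ q θ (k : Fin d), X q θ k.succ = circ 1 (θ k) + β k (q k.succ) :=
    fun q θ k => rfl
  have hXc : ∀ q, ContDiff ℝ 2 (X q) := by
    intro q
    refine contDiff_pi.2 fun k => ?_
    refine Fin.cases ?_ (fun k => ?_) k
    · simp only [hX0]
      rw [contDiff_iff_contDiffAt]
      intro θ
      exact ((hG1 _ _ (hw _ θ)).contDiffAt.restrict_scalars ℝ).comp θ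
        (gw _).smooth.contDiffAt
    · simp only [hXs]
      exact ((contDiff_circ 1).comp (contDiff_apply ℝ ℝ k)).add contDiff_const
  have hXp : ∀ q θ i, X q (θ + Pi.single i 1) = X q θ := by
    intro q θ i
    funext k
    refine Fin.cases ?_ (fun k => ?_) k
    · rw [hX0, hX0, per_ww hβ _ θ i]
    · rw [hXs, hXs]
      congr 1
      exact congrFun (tpt_add_single (fun _ => 1) θ i) k
  have hXf : ∀ q θ (k : Fin d) i, X q θ k.succ - σ (a k.succ i) =
      ff β (fun k => q k.succ) k i (θ k) := by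
    intro q θ k i
    rw [hXs]
    unfold ff
    simp only [hβd]
    ring
  have hXx : ∀ q θ, σ lam * ∏ k, ∏ i, (X q θ k - σ (a k i)) = 1 := by
    intro q θ
    rw [Fin.prod_univ_succ]
    have h1 : ∏ i, (X q θ 0 - σ (a 0 i)) = ww (σ lam) β (fun k => q k.succ) θ :=
      hG2 _ _ (hw _ θ)
    have h2 : ∏ k : Fin d, ∏ i, (X q θ k.succ - σ (a k.succ i)) =
        FF β (fun k => q k.succ) θ := by
      unfold FF
      exact Finset.prod_congr rfl fun k _ => Finset.prod_congr rfl fun i _ => hXf q θ k i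
    rw [h1, h2]
    unfold ww
    have h3 := (good_FF hβ (fun k => q k.succ)).ne_zero θ
    field_simp
  set Γ' : (∀ k, Fin (r k + 1)) → Torus (CRing lam a) d := fun q =>
    mkT (X q) (hXc q) (hXp q) (hXx q) with hΓ'
  set Wm : Matrix (∀ k, Fin (r k + 1)) (∀ k, Fin (r k + 1)) ℝ :=
    Matrix.of fun p q => (Γ' q).pair fun k => ux lam a k (p k) with hWm
  have hWE : ∀ P Q, Wm P Q = -(RR β0 β (σ lam) G (P 0, fun k => P k.succ)
      (Q 0, fun k => Q k.succ)) := by
    intro p q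
    rw [hWm, Matrix.of_apply]
    unfold RR
    rw [neg_neg]
    unfold Torus.pair
    congr 1
    funext k θ
    rw [hΓ', mkT_ux]
    refine Fin.cases ?_ (fun k => ?_) k
    · rfl
    · exact hXf q θ k (p k.succ)
  obtain ⟨e, he⟩ := exists_columns Wm (fun u hu hR => hinj u hu fun Q => by
    have h1 := hR Q
    simp only [hWE, mul_neg, Finset.sum_neg_distrib, neg_eq_zero] at h1
    exact h1)
  refine ⟨fun t => Γ' (e t), fun t θ x => ?_, ?_⟩
  · show Pool.Agent.TH826.MH.evX (hXx (e t) θ) (fpol lam a (MvPolynomial.C x)) = σ x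
    rw [evX_fpol]
    simp
  · have hM : (Matrix.of fun t i : (∀ k, Fin (r k)) =>
        (Γ' (e t)).reg (symb (ent lam a i))) = Matrix.of fun t i : (∀ k, Fin (r k)) =>
        ∑ p, (∏ k, Pool.Agent.TH826.UB.dd (i k) (p k)) * Wm p (e t) := by
      ext t i
      rw [Matrix.of_apply, Matrix.of_apply, Torus.reg_symb]
      exact pair_expand (Γ' (e t)) (fun k => ux lam a k) i
    rw [hM]
    exact he

/-- the log-Laplacian of the scaled points -/
theorem quad_LL_scale {s : ℕ} (β : Fin (s + 1) → ℂ) {c : ℂ} (hc : c ≠ 0)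
    (hβ : Function.Injective β) (v : Fin (s + 1) → ℝ) (hv : ∑ i, v i = 0) :
    ∑ i, ∑ j, v i * v j * LL (fun i => β i / c) i j =
      ∑ i, ∑ j, v i * v j * LL β i j - (s + 1) * Real.log ‖c‖ * ∑ i, v i ^ 2 := by
  have h1 : ∀ i j, Real.log ‖β j / c - β i / c‖ = Real.log ‖β j - β i‖ -
      (if i = j then 0 else Real.log ‖c‖) := by
    intro i j
    by_cases h : i = j
    · subst h
      simp
    · rw [if_neg h, ← sub_div, norm_div, Real.log_div]
      · rw [norm_ne_zero_iff, sub_ne_zero]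
        exact fun h' => h (hβ h').symm
      · exact norm_ne_zero_iff.2 hc
  have h2 : ∀ i j, LL (fun i => β i / c) i j = LL β i j -
      ((if i = j then (s : ℝ) * Real.log ‖c‖ else 0) - (if i = j then 0 else Real.log ‖c‖)) := by
    intro i j
    unfold LL
    simp only [h1]
    by_cases h : i = j
    · subst h
      simp only [if_true]
      have h3 : ∀ t, Real.log ‖β i - β t‖ = Real.log ‖β t - β i‖ := fun t => by
        rw [norm_sub_rev]
      have h4 : ∑ t, (if i = t then (0 : ℝ) else Real.log ‖c‖) = s * Real.log ‖c‖ := by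
        rw [← Finset.add_sum_erase _ _ (Finset.mem_univ i), if_pos rfl, zero_add]
        have h5 : ∑ t ∈ Finset.univ.erase i, (if i = t then (0 : ℝ) else Real.log ‖c‖) =
            ∑ _t ∈ Finset.univ.erase i, Real.log ‖c‖ :=
          Finset.sum_congr rfl fun t ht => if_neg (Finset.ne_of_mem_erase ht).symm
        rw [h5, Finset.sum_const, Finset.card_erase_of_mem (Finset.mem_univ _), Finset.card_univ,
          Fintype.card_fin, nsmul_eq_mul, Nat.add_sub_cancel]
      have h6 : ∀ t, Real.log ‖β t / c - β i / c‖ = Real.log ‖β t - β i‖ -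
          (if i = t then 0 else Real.log ‖c‖) := fun t => h1 i t
      simp only [h6, Finset.sum_sub_distrib]
      rw [h4]
      simp
    · simp only [if_neg h]
      ring
  simp only [h2, mul_sub, Finset.sum_sub_distrib]
  have h3 : ∑ i, ∑ j, v i * v j * (if i = j then (s : ℝ) * Real.log ‖c‖ else 0) =
      s * Real.log ‖c‖ * ∑ i, v i ^ 2 := by
    rw [Finset.mul_sum]
    refine Finset.sum_congr rfl fun i _ => ?_
    simp only [mul_ite, mul_zero, Finset.sum_ite_eq, Finset.mem_univ, if_true]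
    ring
  have h4 : ∑ i, ∑ j, v i * v j * (if i = j then (0 : ℝ) else Real.log ‖c‖) =
      - (Real.log ‖c‖ * ∑ i, v i ^ 2) := by
    have h5 : ∀ i j, v i * v j * (if i = j then (0 : ℝ) else Real.log ‖c‖) =
        v i * v j * Real.log ‖c‖ - (if i = j then v i * v j * Real.log ‖c‖ else 0) := by
      intro i j
      split_ifs <;> ring
    simp only [h5, Finset.sum_sub_distrib, Finset.sum_ite_eq, Finset.mem_univ, if_true]
    have h6 : ∀ i, ∑ j, v i * v j * Real.log ‖c‖ = 0 := by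
      intro i
      rw [← Finset.sum_mul, ← Finset.mul_sum, hv, mul_zero, zero_mul]
    simp only [h6, Finset.sum_const_zero, zero_sub]
    rw [Finset.mul_sum]
    congr 1
    refine Finset.sum_congr rfl fun i _ => ?_
    ring
  rw [h3, h4]
  ring

/-- tori on the hypersurface: the scale invariant form -/
theorem exists_tori_scaled {K : Type*} [Field K] {σ : K →+* ℂ} {lam : K} {d : ℕ} (hd : 0 < d)
    {r : Fin (d + 1) → ℕ} {a : ∀ k, Fin (r k + 1) → K} {δ : Fin (d + 1) → ℝ}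
    (hδ : ∀ k, 0 < δ k) (hsep : ∀ k i j, i ≠ j → 3 * δ k ≤ ‖σ (a k i) - σ (a k j)‖)
    (hlam0 : σ lam ≠ 0) {W : Fin (d + 1) → ℝ} (hW0 : ∀ k, 0 < W k)
    (hW : ∀ k x, (∀ i, δ k ≤ ‖x - σ (a k i)‖) → W k ≤ ∏ i, ‖x - σ (a k i)‖)
    {γ : Fin (d + 1) → ℝ}
    (hγ : ∀ k, ∀ v : Fin (r k + 1) → ℝ, ∑ i, v i = 0 →
      γ k * ∑ i, v i ^ 2 ≤ ∑ i, ∑ j, v i * v j * LL (fun i => σ (a k i)) i j)
    (hone : 1 < ‖σ lam‖ * ∏ k, W k)
    (hmain : ∏ k, ((r k : ℝ) + 1) < (Real.log ‖σ lam‖ + ∑ k, γ k) * (‖σ lam‖ * ∏ k, W k)) :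
    ∃ Γ : (∀ k, Fin (r k)) → Torus (CRing lam a) d,
      (∀ t θ (x : K), (Γ t).e θ (fpol lam a (MvPolynomial.C x)) = σ x) ∧
      (Matrix.of fun t i : (∀ k, Fin (r k)) => (Γ t).reg (symb (ent lam a i))).det ≠ 0 := by
  set ε : Fin (d + 1) → ℂ := fun k => (δ k : ℂ) with hε
  have hε0 : ∀ k, ε k ≠ 0 := fun k => Complex.ofReal_ne_zero.2 (hδ k).ne'
  have hεn : ∀ k, ‖ε k‖ = δ k := fun k => by
    simp only [hε]
    rw [Complex.norm_real, Real.norm_of_nonneg (hδ k).le]
  have hμ : ‖sl σ lam r ε‖ = ‖σ lam‖ * ∏ k, δ k ^ (r k + 1) := by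
    unfold sl
    rw [norm_mul, norm_prod]
    simp only [norm_pow, hεn]
  have hprod : ∏ k, (W k / δ k ^ (r k + 1)) = (∏ k, W k) / ∏ k, δ k ^ (r k + 1) :=
    Finset.prod_div_distrib _ _
  have hδP : 0 < ∏ k, δ k ^ (r k + 1) := Finset.prod_pos fun k _ => pow_pos (hδ k) _
  have hinj : ∀ k, Function.Injective fun i => σ (a k i) := by
    intro k i j hij
    by_contra hne
    have h := hsep k i j hne
    simp only at hij
    rw [hij, sub_self, norm_zero] at h
    linarith [hδ k]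
  have hsub : ∀ k (x y : ℂ), ‖x / ε k - y / ε k‖ = ‖x - y‖ / δ k := by
    intro k x y
    rw [← sub_div, norm_div, hεn]
  have hkey : ‖sl σ lam r ε‖ * ∏ k, (W k / δ k ^ (r k + 1)) = ‖σ lam‖ * ∏ k, W k := by
    rw [hμ, hprod]
    field_simp
  obtain ⟨Γ, h1, h2⟩ := exists_tori (K := ℂ) (σ := RingHom.id ℂ) (lam := sl σ lam r ε) hd
    (a := sa σ a ε) (fun k i j hij => by
      unfold sa
      rw [RingHom.id_apply, RingHom.id_apply, hsub, le_div_iff₀ (hδ k)]
      exact hsep k i j hij) (by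
      rw [RingHom.id_apply, ← norm_pos_iff, hμ]
      have := norm_pos_iff.2 hlam0
      positivity)
    (W := fun k => W k / δ k ^ (r k + 1)) (fun k => div_pos (hW0 k) (pow_pos (hδ k) _))
    (fun k x hx => by
      have h3 := hW k (x * ε k) (fun i => by
        have h4 := hx i
        unfold sa at h4
        rw [RingHom.id_apply] at h4
        have h5 : x = x * ε k / ε k := by rw [mul_div_cancel_right₀ _ (hε0 k)]
        rw [h5, hsub, le_div_iff₀ (hδ k)] at h4
        linarith)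
      rw [div_le_iff₀ (pow_pos (hδ k) _)]
      refine h3.trans (le_of_eq ?_)
      unfold sa
      simp only [RingHom.id_apply]
      have h6 : ∀ i, ‖x - σ (a k i) / ε k‖ = ‖x * ε k - σ (a k i)‖ / δ k := by
        intro i
        have h5 : x = x * ε k / ε k := by rw [mul_div_cancel_right₀ _ (hε0 k)]
        conv_lhs => rw [h5]
        exact hsub k _ _
      simp only [h6]
      rw [Finset.prod_div_distrib, Finset.prod_const, Finset.card_univ, Fintype.card_fin,
        div_mul_cancel₀ _ (pow_pos (hδ k) _).ne'])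
    (γ := fun k => γ k - (r k + 1) * Real.log (δ k))
    (fun k v hv => by
      unfold sa
      simp only [RingHom.id_apply]
      rw [quad_LL_scale (fun i => σ (a k i)) (hε0 k) (hinj k) v hv, hεn]
      have := hγ k v hv
      linarith)
    (by
      rw [RingHom.id_apply, hkey]
      exact hone)
    (by
      rw [RingHom.id_apply, hkey]
      have h3 : Real.log ‖sl σ lam r ε‖ + ∑ k, (γ k - (r k + 1) * Real.log (δ k)) =
          Real.log ‖σ lam‖ + ∑ k, γ k := by
        rw [hμ, Real.log_mul (norm_pos_iff.2 hlam0).ne' hδP.ne', Real.log_prod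
          (fun k _ => (pow_pos (hδ k) _).ne'), Finset.sum_sub_distrib]
        simp only [Real.log_pow]
        push_cast
        ring
      rw [h3]
      exact hmain)
  refine ⟨fun t => comap (phi lam a hε0) (Γ t), fun t θ x => ?_, ?_⟩
  · show (Γ t).e θ (phi lam a hε0 (fpol lam a (MvPolynomial.C x))) = σ x
    rw [phi_fpol, phi0_C, h1]
    rfl
  · have hM : (Matrix.of fun t i : (∀ k, Fin (r k)) =>
        (comap (phi lam a hε0) (Γ t)).reg (symb (ent lam a i))) =
        Matrix.of fun t i : (∀ k, Fin (r k)) => (Γ t).reg (symb (ent _ _ i)) := by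
      ext t i
      rw [Matrix.of_apply, Matrix.of_apply, comap_reg]
      simp only [phi_ent]
    rw [hM]
    exact h2

end Pool.Agent.Helper65K9.MD
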